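import Mathlib

set_option autoImplicit false

namespace Pool.Agent.Helper590.Henon

/-- the sign attached to a Boolean -/
def sg (b : Bool) : ℤ := if b then 1 else -1

/-- the 0/1 number attached to a Boolean -/
def ind (b : Bool) : ℤ := if b then 1 else 0

/-- the quadratic symbol form (twice gamma) -/
def G2 (a b c d e : ℤ) : ℤ := d * e + a * b - d * c - b * c - 1 + b * d

/-- the linear symbol form -/
def ZZ (b d k l m : ℤ) : ℤ := d * m - b * k - l * (d - b)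

theorem win1 : ∀ a b c d e f g h : Bool,
    G2 (sg a) (sg b) (sg c) (sg d) (sg e) = G2 (sg b) (sg c) (sg d) (sg e) (sg f) →
    G2 (sg a) (sg b) (sg c) (sg d) (sg e) = G2 (sg c) (sg d) (sg e) (sg f) (sg g) →
    G2 (sg a) (sg b) (sg c) (sg d) (sg e) = G2 (sg d) (sg e) (sg f) (sg g) (sg h) →
    a = e := by
  decide +kernel

/-- consistency of two positions -/
def con (k l : Bool) (g g' z z' : ℤ) : Bool :=
  if k = l then (decide (g = g') && decide (z = z')) else !(decide (g = g'))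

/-- consistency of the linear forms of two positions -/
def conz (k l : Bool) (z z' : ℤ) : Bool :=
  if k = l then decide (z = z') else true

theorem win2 : ∀ e0 e1 e2 e3 e4 k0 k1 k2 k3 k4 : Bool, k3 ≠ k4 →
    (conz k1 k2 (ZZ (sg e0) (sg e2) (ind k0) (ind k1) (ind k2)) (ZZ (sg e1) (sg e3) (ind k1) (ind k2) (ind k3)) &&
     conz k1 k3 (ZZ (sg e0) (sg e2) (ind k0) (ind k1) (ind k2)) (ZZ (sg e2) (sg e4) (ind k2) (ind k3) (ind k4)) &&
     conz k2 k3 (ZZ (sg e1) (sg e3) (ind k1) (ind k2) (ind k3)) (ZZ (sg e2) (sg e4) (ind k2) (ind k3) (ind k4))) = true →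
    ∀ e5 k5 : Bool,
    (con k2 k3 (G2 (sg e0) (sg e1) (sg e2) (sg e3) (sg e4)) (G2 (sg e1) (sg e2) (sg e3) (sg e4) (sg e5))
        (ZZ (sg e1) (sg e3) (ind k1) (ind k2) (ind k3)) (ZZ (sg e2) (sg e4) (ind k2) (ind k3) (ind k4)) &&
     conz k1 k4 (ZZ (sg e0) (sg e2) (ind k0) (ind k1) (ind k2)) (ZZ (sg e3) (sg e5) (ind k3) (ind k4) (ind k5)) &&
     conz k2 k4 (ZZ (sg e1) (sg e3) (ind k1) (ind k2) (ind k3)) (ZZ (sg e3) (sg e5) (ind k3) (ind k4) (ind k5)) &&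
     conz k3 k4 (ZZ (sg e2) (sg e4) (ind k2) (ind k3) (ind k4)) (ZZ (sg e3) (sg e5) (ind k3) (ind k4) (ind k5))) = true →
    ∀ e6 k6 : Bool,
    (con k2 k4 (G2 (sg e0) (sg e1) (sg e2) (sg e3) (sg e4)) (G2 (sg e2) (sg e3) (sg e4) (sg e5) (sg e6))
        (ZZ (sg e1) (sg e3) (ind k1) (ind k2) (ind k3)) (ZZ (sg e3) (sg e5) (ind k3) (ind k4) (ind k5)) &&
     con k3 k4 (G2 (sg e1) (sg e2) (sg e3) (sg e4) (sg e5)) (G2 (sg e2) (sg e3) (sg e4) (sg e5) (sg e6))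
        (ZZ (sg e2) (sg e4) (ind k2) (ind k3) (ind k4)) (ZZ (sg e3) (sg e5) (ind k3) (ind k4) (ind k5)) &&
     conz k1 k5 (ZZ (sg e0) (sg e2) (ind k0) (ind k1) (ind k2)) (ZZ (sg e4) (sg e6) (ind k4) (ind k5) (ind k6)) &&
     conz k2 k5 (ZZ (sg e1) (sg e3) (ind k1) (ind k2) (ind k3)) (ZZ (sg e4) (sg e6) (ind k4) (ind k5) (ind k6)) &&
     conz k3 k5 (ZZ (sg e2) (sg e4) (ind k2) (ind k3) (ind k4)) (ZZ (sg e4) (sg e6) (ind k4) (ind k5) (ind k6)) &&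
     conz k4 k5 (ZZ (sg e3) (sg e5) (ind k3) (ind k4) (ind k5)) (ZZ (sg e4) (sg e6) (ind k4) (ind k5) (ind k6))) = true →
    ∀ e7 k7 : Bool,
    (con k2 k5 (G2 (sg e0) (sg e1) (sg e2) (sg e3) (sg e4)) (G2 (sg e3) (sg e4) (sg e5) (sg e6) (sg e7))
        (ZZ (sg e1) (sg e3) (ind k1) (ind k2) (ind k3)) (ZZ (sg e4) (sg e6) (ind k4) (ind k5) (ind k6)) &&
     con k3 k5 (G2 (sg e1) (sg e2) (sg e3) (sg e4) (sg e5)) (G2 (sg e3) (sg e4) (sg e5) (sg e6) (sg e7))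
        (ZZ (sg e2) (sg e4) (ind k2) (ind k3) (ind k4)) (ZZ (sg e4) (sg e6) (ind k4) (ind k5) (ind k6)) &&
     con k4 k5 (G2 (sg e2) (sg e3) (sg e4) (sg e5) (sg e6)) (G2 (sg e3) (sg e4) (sg e5) (sg e6) (sg e7))
        (ZZ (sg e3) (sg e5) (ind k3) (ind k4) (ind k5)) (ZZ (sg e4) (sg e6) (ind k4) (ind k5) (ind k6)) &&
     conz k1 k6 (ZZ (sg e0) (sg e2) (ind k0) (ind k1) (ind k2)) (ZZ (sg e5) (sg e7) (ind k5) (ind k6) (ind k7)) &&
     conz k2 k6 (ZZ (sg e1) (sg e3) (ind k1) (ind k2) (ind k3)) (ZZ (sg e5) (sg e7) (ind k5) (ind k6) (ind k7)) &&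
     conz k3 k6 (ZZ (sg e2) (sg e4) (ind k2) (ind k3) (ind k4)) (ZZ (sg e5) (sg e7) (ind k5) (ind k6) (ind k7)) &&
     conz k4 k6 (ZZ (sg e3) (sg e5) (ind k3) (ind k4) (ind k5)) (ZZ (sg e5) (sg e7) (ind k5) (ind k6) (ind k7)) &&
     conz k5 k6 (ZZ (sg e4) (sg e6) (ind k4) (ind k5) (ind k6)) (ZZ (sg e5) (sg e7) (ind k5) (ind k6) (ind k7))) = true →
    False := by
  decide +kernel

end Pool.Agent.Helper590.Henon
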