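import Mathlib
import Pool.Agent.Helper590.Henon.Window

set_option autoImplicit false

namespace Pool.Agent.Helper590.Henon

/-- the form G2 along a sequence -/
def Gf (e : ℤ → Bool) (i : ℤ) : ℤ :=
  G2 (sg (e (i - 2))) (sg (e (i - 1))) (sg (e i)) (sg (e (i + 1))) (sg (e (i + 2)))

/-- the form ZZ along a sequence -/
def Zf (e k : ℤ → Bool) (i : ℤ) : ℤ :=
  ZZ (sg (e (i - 1))) (sg (e (i + 1))) (ind (k (i - 1))) (ind (k i)) (ind (k (i + 1)))

theorem sg_sq (b : Bool) : sg b ^ 2 = 1 := by cases b <;> rfl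

theorem ind_sq (b : Bool) : ind b ^ 2 = ind b := by cases b <;> rfl

theorem G2_range : ∀ a b c d e : Bool,
    -4 ≤ G2 (sg a) (sg b) (sg c) (sg d) (sg e) ∧ G2 (sg a) (sg b) (sg c) (sg d) (sg e) ≤ 4 := by
  decide +kernel

/-- basic identity -/
theorem ident (s z : ℤ → ℤ) (e k : ℤ → Bool) (N a B Q : ℤ)
    (hs : ∀ i, s i = sg (e i) * z i)
    (hz : ∀ i, 2 * z i = B + N * (sg (e (i + 1)) - sg (e (i - 1))) - 2 * Q * ind (k i))
    (hrec : ∀ i, N * (s (i + 1) - s (i - 1)) = s i ^ 2 - a) (i : ℤ) :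
    2 * N ^ 2 * Gf e i - 4 * N * Q * Zf e k i
      = (B ^ 2 - 4 * a) + ind (k i) * (4 * Q * (Q - B)) := by
  have h0 := hrec i
  rw [hs (i + 1), hs (i - 1), hs i] at h0
  have h1 := hz i
  have h2 := hz (i + 1)
  have h3 := hz (i - 1)
  rw [show i + 1 + 1 = i + 2 by ring, show i + 1 - 1 = i by ring] at h2
  rw [show i - 1 + 1 = i by ring, show i - 1 - 1 = i - 2 by ring] at h3
  unfold Gf Zf G2 ZZ
  have q1 := sg_sq (e (i - 1))
  have q2 := sg_sq (e (i + 1))
  have q3 := sg_sq (e i)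
  have q4 := ind_sq (k i)
  generalize sg (e (i - 2)) = A1 at *
  generalize sg (e (i - 1)) = A2 at *
  generalize sg (e i) = A3 at *
  generalize sg (e (i + 1)) = A4 at *
  generalize sg (e (i + 2)) = A5 at *
  generalize ind (k (i - 1)) = K1 at *
  generalize ind (k i) = K2 at *
  generalize ind (k (i + 1)) = K3 at *
  generalize z (i - 1) = z1 at *
  generalize z i = z2 at *
  generalize z (i + 1) = z3 at *
  have h4 : 2 * N * (A4 * (2 * z3) - A2 * (2 * z1)) = A3 ^ 2 * (2 * z2) ^ 2 - 4 * a := by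
    linear_combination 4 * h0
  rw [h2, h3, h1, q3] at h4
  linear_combination h4 + (N ^ 2) * q1 + (N ^ 2) * q2 + (4 * Q ^ 2) * q4

theorem Gf_eq (e : ℤ → Bool) (n : ℤ) :
    Gf e (n + 2) = G2 (sg (e n)) (sg (e (n + 1))) (sg (e (n + 2))) (sg (e (n + 3))) (sg (e (n + 4))) := by
  unfold Gf
  rw [show n + 2 - 2 = n by ring, show n + 2 - 1 = n + 1 by ring, show n + 2 + 1 = n + 3 by ring,
    show n + 2 + 2 = n + 4 by ring]

theorem Zf_eq (e k : ℤ → Bool) (n : ℤ) :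
    Zf e k (n + 1) = ZZ (sg (e n)) (sg (e (n + 2))) (ind (k n)) (ind (k (n + 1))) (ind (k (n + 2))) := by
  unfold Zf
  rw [show n + 1 - 1 = n by ring, show n + 1 + 1 = n + 2 by ring]

/-- constant case -/
theorem const_case (s z : ℤ → ℤ) (e : ℤ → Bool) (N a B : ℤ) (hN : N ≠ 0)
    (hs : ∀ i, s i = sg (e i) * z i)
    (hz : ∀ i, 2 * z i = B + N * (sg (e (i + 1)) - sg (e (i - 1))))
    (hrec : ∀ i, N * (s (i + 1) - s (i - 1)) = s i ^ 2 - a) (i : ℤ) :
    s (i + 4) = s i := by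
  have hG : ∀ i j, Gf e i = Gf e j := by
    intro i j
    have h1 := ident s z e (fun _ => false) N a B 0 hs (by intro i; rw [hz i]; ring) hrec i
    have h2 := ident s z e (fun _ => false) N a B 0 hs (by intro i; rw [hz i]; ring) hrec j
    have hN2 : (2 * N ^ 2 : ℤ) ≠ 0 := by positivity
    have h3 : 2 * N ^ 2 * Gf e i = 2 * N ^ 2 * Gf e j := by
      simp only [ind, Bool.false_eq_true, if_false] at h1 h2
      linear_combination h1 - h2
    exact mul_left_cancel₀ hN2 h3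
  have he : ∀ n, e n = e (n + 4) := by
    intro n
    apply win1 (e n) (e (n + 1)) (e (n + 2)) (e (n + 3)) (e (n + 4)) (e (n + 5)) (e (n + 6)) (e (n + 7))
    · have := hG (n + 2) (n + 1 + 2)
      rw [Gf_eq, Gf_eq] at this
      rw [this]
      congr 3 <;> ring
    · have := hG (n + 2) (n + 2 + 2)
      rw [Gf_eq, Gf_eq] at this
      rw [this]
      congr 3 <;> ring
    · have := hG (n + 2) (n + 3 + 2)
      rw [Gf_eq, Gf_eq] at this
      rw [this]
      congr 3 <;> ring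
  have hz4 : z (i + 4) = z i := by
    have h1 := hz i
    have h2 := hz (i + 4)
    rw [show i + 4 + 1 = (i + 1) + 4 by ring, show i + 4 - 1 = (i - 1) + 4 by ring,
      ← he (i + 1), ← he (i - 1)] at h2
    linarith
  rw [hs (i + 4), hs i, hz4, ← he i]

/-- two class case: the class symbol is constant -/
theorem two_class (s z : ℤ → ℤ) (e k : ℤ → Bool) (N a B Q g : ℤ) (hN : 0 < N)
    (hQ : 5 * N ≤ |Q|) (hB : ¬ g ∣ B) (hgN : g ∣ N) (hgQ : g ∣ Q)
    (hs : ∀ i, s i = sg (e i) * z i)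
    (hz : ∀ i, 2 * z i = B + N * (sg (e (i + 1)) - sg (e (i - 1))) - 2 * Q * ind (k i))
    (hrec : ∀ i, N * (s (i + 1) - s (i - 1)) = s i ^ 2 - a) (i : ℤ) :
    k i = k (i + 1) := by
  have hid := ident s z e k N a B Q hs hz hrec
  have hN2 : (2 * N ^ 2 : ℤ) ≠ 0 := by positivity
  have hsame : ∀ i j, k i = k j → Gf e i = Gf e j ∧ Zf e k i = Zf e k j := by
    intro i j hk
    have h1 := hid i
    have h2 := hid j
    rw [hk] at h1
    have r1 := G2_range (e (i - 2)) (e (i - 1)) (e i) (e (i + 1)) (e (i + 2))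
    have r2 := G2_range (e (j - 2)) (e (j - 1)) (e j) (e (j + 1)) (e (j + 2))
    have r1' : -4 ≤ Gf e i ∧ Gf e i ≤ 4 := r1
    have r2' : -4 ≤ Gf e j ∧ Gf e j ≤ 4 := r2
    have h4 : N * (Gf e i - Gf e j) = 2 * Q * (Zf e k i - Zf e k j) := by
      apply mul_left_cancel₀ (by positivity : (2 * N : ℤ) ≠ 0)
      linear_combination h1 - h2
    have h5 : Zf e k i = Zf e k j := by
      by_contra hne
      have h6 : 1 ≤ |Zf e k i - Zf e k j| := Int.one_le_abs (sub_ne_zero.mpr hne)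
      have h7 : N * |Gf e i - Gf e j| = 2 * |Q| * |Zf e k i - Zf e k j| := by
        have : |N * (Gf e i - Gf e j)| = |2 * Q * (Zf e k i - Zf e k j)| := by rw [h4]
        rw [abs_mul, abs_mul, abs_mul, abs_of_pos hN] at this
        simpa using this
      have h8 : |Gf e i - Gf e j| ≤ 8 := abs_le.mpr ⟨by linarith [r1'.1, r2'.2], by linarith [r1'.2, r2'.1]⟩
      nlinarith [abs_nonneg Q]
    refine ⟨?_, h5⟩
    rw [h5] at h4
    have h9 : N * (Gf e i - Gf e j) = 0 := by rw [h4]; ring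
    rcases mul_eq_zero.mp h9 with h | h
    · exact absurd h hN.ne'
    · linarith
  have hdiff : ∀ i j, k i = true → k j = false → Gf e i ≠ Gf e j := by
    intro i j hi hj hG
    have h1 := hid i
    have h2 := hid j
    rw [hi] at h1
    rw [hj] at h2
    simp only [ind, if_true, Bool.false_eq_true, if_false] at h1 h2
    have hQ0 : Q ≠ 0 := by
      rintro rfl
      rw [abs_zero] at hQ
      linarith
    have h3 : (4 * Q) * (Q + N * (Zf e k i - Zf e k j)) = (4 * Q) * B := by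
      rw [hG] at h1
      linear_combination h2 - h1
    have h4 : (4 * Q : ℤ) ≠ 0 := by positivity
    have h5 := mul_left_cancel₀ h4 h3
    apply hB
    rw [← h5]
    exact dvd_add hgQ (hgN.mul_right _)
  have hc : ∀ i j g g' z z', Gf e i = g → Gf e j = g' → Zf e k i = z → Zf e k j = z' →
      con (k i) (k j) g g' z z' = true := by
    intro i j g g' z z' e1 e2 e3 e4
    subst e1 e2 e3 e4
    unfold con
    by_cases h : k i = k j
    · rw [if_pos h]
      have := hsame i j h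
      simp [this.1, this.2]
    · rw [if_neg h]
      have hne : Gf e i ≠ Gf e j := by
        cases hi : k i <;> cases hj : k j
        · exact absurd (hi.trans hj.symm) h
        · exact (hdiff j i hj hi).symm
        · exact hdiff i j hi hj
        · exact absurd (hi.trans hj.symm) h
      simp [hne]
  have hcz : ∀ i j z z', Zf e k i = z → Zf e k j = z' →
      conz (k i) (k j) z z' = true := by
    intro i j z z' e3 e4
    subst e3 e4
    unfold conz
    by_cases h : k i = k j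
    · rw [if_pos h]
      simp [(hsame i j h).2]
    · rw [if_neg h]
  by_contra hne
  -- base index
  obtain ⟨n, rfl⟩ : ∃ n, i = n + 3 := ⟨i - 3, by ring⟩
  have z1 : Zf e k (n + 1) = ZZ (sg (e n)) (sg (e (n + 2))) (ind (k n)) (ind (k (n + 1))) (ind (k (n + 2))) := Zf_eq e k n
  have z2 : Zf e k (n + 2) = ZZ (sg (e (n + 1))) (sg (e (n + 3))) (ind (k (n + 1))) (ind (k (n + 2))) (ind (k (n + 3))) := by
    have := Zf_eq e k (n + 1)
    rwa [show n + 1 + 1 = n + 2 by ring, show n + 1 + 2 = n + 3 by ring] at this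
  have z3 : Zf e k (n + 3) = ZZ (sg (e (n + 2))) (sg (e (n + 4))) (ind (k (n + 2))) (ind (k (n + 3))) (ind (k (n + 4))) := by
    have := Zf_eq e k (n + 2)
    rwa [show n + 2 + 1 = n + 3 by ring, show n + 2 + 2 = n + 4 by ring] at this
  have z4 : Zf e k (n + 4) = ZZ (sg (e (n + 3))) (sg (e (n + 5))) (ind (k (n + 3))) (ind (k (n + 4))) (ind (k (n + 5))) := by
    have := Zf_eq e k (n + 3)
    rwa [show n + 3 + 1 = n + 4 by ring, show n + 3 + 2 = n + 5 by ring] at this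
  have z5 : Zf e k (n + 5) = ZZ (sg (e (n + 4))) (sg (e (n + 6))) (ind (k (n + 4))) (ind (k (n + 5))) (ind (k (n + 6))) := by
    have := Zf_eq e k (n + 4)
    rwa [show n + 4 + 1 = n + 5 by ring, show n + 4 + 2 = n + 6 by ring] at this
  have z6 : Zf e k (n + 6) = ZZ (sg (e (n + 5))) (sg (e (n + 7))) (ind (k (n + 5))) (ind (k (n + 6))) (ind (k (n + 7))) := by
    have := Zf_eq e k (n + 5)
    rwa [show n + 5 + 1 = n + 6 by ring, show n + 5 + 2 = n + 7 by ring] at this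
  have g2 : Gf e (n + 2) = G2 (sg (e n)) (sg (e (n + 1))) (sg (e (n + 2))) (sg (e (n + 3))) (sg (e (n + 4))) := Gf_eq e n
  have g3 : Gf e (n + 3) = G2 (sg (e (n + 1))) (sg (e (n + 2))) (sg (e (n + 3))) (sg (e (n + 4))) (sg (e (n + 5))) := by
    have := Gf_eq e (n + 1)
    rwa [show n + 1 + 1 = n + 2 by ring, show n + 1 + 2 = n + 3 by ring, show n + 1 + 3 = n + 4 by ring, show n + 1 + 4 = n + 5 by ring] at this
  have g4 : Gf e (n + 4) = G2 (sg (e (n + 2))) (sg (e (n + 3))) (sg (e (n + 4))) (sg (e (n + 5))) (sg (e (n + 6))) := by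
    have := Gf_eq e (n + 2)
    rwa [show n + 2 + 1 = n + 3 by ring, show n + 2 + 2 = n + 4 by ring, show n + 2 + 3 = n + 5 by ring, show n + 2 + 4 = n + 6 by ring] at this
  have g5 : Gf e (n + 5) = G2 (sg (e (n + 3))) (sg (e (n + 4))) (sg (e (n + 5))) (sg (e (n + 6))) (sg (e (n + 7))) := by
    have := Gf_eq e (n + 3)
    rwa [show n + 3 + 1 = n + 4 by ring, show n + 3 + 2 = n + 5 by ring, show n + 3 + 3 = n + 6 by ring, show n + 3 + 4 = n + 7 by ring] at this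
  have hne' : k (n + 3) ≠ k (n + 4) := by
    rwa [show n + 3 + 1 = n + 4 by ring] at hne
  refine win2 (e n) (e (n + 1)) (e (n + 2)) (e (n + 3)) (e (n + 4)) (k n) (k (n + 1)) (k (n + 2)) (k (n + 3)) (k (n + 4))
    hne' ?_ (e (n + 5)) (k (n + 5)) ?_ (e (n + 6)) (k (n + 6)) ?_ (e (n + 7)) (k (n + 7)) ?_
  · simp only [Bool.and_eq_true]
    exact ⟨⟨hcz _ _ _ _ z1 z2, hcz _ _ _ _ z1 z3⟩, hcz _ _ _ _ z2 z3⟩
  · simp only [Bool.and_eq_true]
    exact ⟨⟨⟨hc _ _ _ _ _ _ g2 g3 z2 z3, hcz _ _ _ _ z1 z4⟩, hcz _ _ _ _ z2 z4⟩, hcz _ _ _ _ z3 z4⟩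
  · simp only [Bool.and_eq_true]
    exact ⟨⟨⟨⟨⟨hc _ _ _ _ _ _ g2 g4 z2 z4, hc _ _ _ _ _ _ g3 g4 z3 z4⟩, hcz _ _ _ _ z1 z5⟩, hcz _ _ _ _ z2 z5⟩,
      hcz _ _ _ _ z3 z5⟩, hcz _ _ _ _ z4 z5⟩
  · simp only [Bool.and_eq_true]
    exact ⟨⟨⟨⟨⟨⟨⟨hc _ _ _ _ _ _ g2 g5 z2 z5, hc _ _ _ _ _ _ g3 g5 z3 z5⟩, hc _ _ _ _ _ _ g4 g5 z4 z5⟩,
      hcz _ _ _ _ z1 z6⟩, hcz _ _ _ _ z2 z6⟩, hcz _ _ _ _ z3 z6⟩, hcz _ _ _ _ z4 z6⟩, hcz _ _ _ _ z5 z6⟩

end Pool.Agent.Helper590.Henon
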