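import Mathlib
import Pool.Agent.Helper590.Henon.Code

set_option autoImplicit false

namespace Pool.Agent.Helper590.Henon

theorem sg_sub (b c : Bool) : sg b - sg c = 2 * (ind b - ind c) := by
  cases b <;> cases c <;> rfl

theorem ind_diff (b c b' c' : Bool) : |(ind b - ind c) - (ind b' - ind c')| ≤ 2 := by
  cases b <;> cases c <;> cases b' <;> cases c' <;> decide

theorem big_case (s : ℤ → ℤ) (N a M d : ℤ) (hN : 0 < N) (hd : 0 < d)
    (hM : ∀ i, |s i| ≤ M) (hm : ∀ i, M ^ 2 ≤ s i ^ 2 + 4 * N * M)
    (h25 : 25 * N < 4 * M) (hbig : 10 * N ^ 2 ≤ (2 * M - 5 * N) * d)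
    (hdiv : ∀ i j, ∀ w : ℤ, d ∣ |s i| - |s j| - N * w)
    (hrec : ∀ i, N * (s (i + 1) - s (i - 1)) = s i ^ 2 - a) (i : ℤ) :
    s (i + 4) = s i := by
  set e : ℤ → Bool := fun i => decide (0 < s i) with he
  set t : ℤ → ℤ := fun i => |s i| with ht
  have hst : ∀ i, s i = sg (e i) * t i := by
    intro i
    by_cases h : 0 < s i
    · simp only [he, ht, h, decide_true, sg, if_true, abs_of_pos h, one_mul]
    · have h' : s i ≤ 0 := not_lt.mp h
      simp only [he, ht, h, decide_false, sg, Bool.false_eq_true, if_false, abs_of_nonpos h']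
      ring
  have hsq : ∀ i, t i ^ 2 = s i ^ 2 := fun i => sq_abs _
  have htM : ∀ i, t i ≤ M := hM
  have ht0 : ∀ i, 0 ≤ t i := fun i => abs_nonneg _
  have htm : ∀ i, 2 * M - 5 * N < 2 * t i := by
    intro i
    by_contra hcon
    have h1 : 2 * t i ≤ 2 * M - 5 * N := not_lt.mp hcon
    have h2 := hm i
    rw [← hsq i] at h2
    have h3 : (2 * t i) ^ 2 ≤ (2 * M - 5 * N) ^ 2 := by
      apply pow_le_pow_left₀ (by linarith [ht0 i]) h1
    nlinarith
  have hrec' : ∀ i, N * (sg (e (i + 1)) * t (i + 1) - sg (e (i - 1)) * t (i - 1)) = t i ^ 2 - a := by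
    intro i
    rw [← hst, ← hst, hsq i]
    exact hrec i
  set w : ℤ → ℤ := fun i => ind (e (i + 1)) - ind (e (i - 1)) with hw
  have key : ∀ i j, t i - t j = N * (w i - w j) := by
    intro i j
    have h1 := hrec' i
    have h2 := hrec' j
    by_contra hne
    have hX0 : t i - t j - N * (w i - w j) ≠ 0 := sub_ne_zero.mpr hne
    have hX1 : d ≤ |t i - t j - N * (w i - w j)| := by
      have h3 : d ∣ |t i - t j - N * (w i - w j)| := (dvd_abs _ _).mpr (hdiv i j (w i - w j))
      exact Int.le_of_dvd (abs_pos.mpr hX0) h3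
    have hX2 : (t i - t j - N * (w i - w j)) * (t i + t j)
        = N * ((sg (e (i + 1)) * t (i + 1) - sg (e (i - 1)) * t (i - 1))
            - (sg (e (j + 1)) * t (j + 1) - sg (e (j - 1)) * t (j - 1)) - (w i - w j) * (t i + t j)) := by
      linear_combination (-1) * h1 + h2
    have hX3 : |(sg (e (i + 1)) * t (i + 1) - sg (e (i - 1)) * t (i - 1))
            - (sg (e (j + 1)) * t (j + 1) - sg (e (j - 1)) * t (j - 1)) - (w i - w j) * (t i + t j)| ≤ 10 * N := by
      have a1 := htM i
      have a2 := htM j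
      have a3 := htM (i + 1)
      have a4 := htM (i - 1)
      have a5 := htM (j + 1)
      have a6 := htM (j - 1)
      have b1 := htm i
      have b2 := htm j
      have b3 := htm (i + 1)
      have b4 := htm (i - 1)
      have b5 := htm (j + 1)
      have b6 := htm (j - 1)
      simp only [hw]
      rw [abs_le]
      cases e (i + 1) <;> cases e (i - 1) <;> cases e (j + 1) <;> cases e (j - 1) <;>
        simp only [sg, ind, if_true, Bool.false_eq_true, if_false] <;> constructor <;> linarith
    have hX4 : |t i - t j - N * (w i - w j)| * (t i + t j) ≤ N * (10 * N) := by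
      have hpos : 0 ≤ t i + t j := by linarith [ht0 i, ht0 j]
      calc |t i - t j - N * (w i - w j)| * (t i + t j)
          = |(t i - t j - N * (w i - w j)) * (t i + t j)| := by rw [abs_mul, abs_of_nonneg hpos]
        _ = N * |(sg (e (i + 1)) * t (i + 1) - sg (e (i - 1)) * t (i - 1))
            - (sg (e (j + 1)) * t (j + 1) - sg (e (j - 1)) * t (j - 1)) - (w i - w j) * (t i + t j)| := by
              rw [hX2, abs_mul, abs_of_pos hN]
        _ ≤ N * (10 * N) := by
              apply mul_le_mul_of_nonneg_left hX3 hN.le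
    have hsum : 2 * M - 5 * N < t i + t j := by linarith [htm i, htm j]
    have hpos2 : 0 < 2 * M - 5 * N := by linarith
    nlinarith
  refine const_case s t e N a (2 * t 0 - 2 * N * w 0) hN.ne' hst ?_ hrec i
  intro i
  have h1 := key i 0
  have h2 := sg_sub (e (i + 1)) (e (i - 1))
  rw [h2]
  simp only [hw] at h1 ⊢
  linear_combination 2 * h1

theorem gap_ineq (N M E UI UJ : ℤ) (hN : 0 < N) (hj : 0 < UJ) (hM : UI ≤ M)
    (h6 : E - 2 * N ≤ UI - UJ) (h8 : M ^ 2 ≤ UJ ^ 2 + 4 * N * M)
    (hor : 6 * N ≤ E ∨ (5 * N ≤ E ∧ 9 * N < 2 * M)) : False := by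
  obtain ⟨L, hL⟩ : ∃ L, L = E - 2 * N := ⟨_, rfl⟩
  have h9 : UJ ≤ M - L := by linarith
  have h10 : UJ ^ 2 ≤ (M - L) ^ 2 := pow_le_pow_left₀ hj.le h9 2
  have h12 : (2 * L - 4 * N) * M ≤ L ^ 2 := by nlinarith
  have h13 : L < M := by linarith
  by_cases h4 : 4 * N ≤ L
  · have h14 : L * M ≤ (2 * L - 4 * N) * M := by
      apply mul_le_mul_of_nonneg_right (by linarith)
      linarith
    have h15 : L * L < L * M := mul_lt_mul_of_pos_left h13 (by linarith)
    nlinarith
  · have h3 : 3 * N ≤ L ∧ 9 * N < 2 * M := by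
      rcases hor with h | h
      · exact absurd (by linarith : 4 * N ≤ L) h4
      · exact ⟨by linarith [h.1], h.2⟩
    obtain ⟨h3a, h3b⟩ := h3
    have h5 : 0 < 2 * L - 4 * N := by linarith
    have h16 : (2 * L - 4 * N) * (9 * N) < (2 * L - 4 * N) * (2 * M) := mul_lt_mul_of_pos_left h3b h5
    have h17 : 0 ≤ (L - 3 * N) * (6 * N - L) := mul_nonneg (by linarith) (by linarith)
    nlinarith

theorem padic_case (s : ℤ → ℤ) (N a M g E : ℤ) (hN : 0 < N)
    (hg2 : ¬ g ∣ 2 * s 0) (hgN : g ∣ N) (hgE : g ∣ E)
    (hE : ∀ x, g ^ 2 ∣ 2 * x → (2 ∣ N → 2 ∣ x) → E ∣ x)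
    (hodd : 2 ∣ N → ∀ i, s i % 2 = 1)
    (hcl : ∀ i, g ∣ s i - s 0 ∨ g ∣ s i + s 0)
    (hcop : IsCoprime (s 0) g)
    (hM : ∀ i, |s i| ≤ M) (hm : ∀ i, M ^ 2 ≤ s i ^ 2 + 4 * N * M)
    (hor : 6 * N ≤ E ∨ (5 * N ≤ E ∧ 9 * N < 2 * M))
    (hrec : ∀ i, N * (s (i + 1) - s (i - 1)) = s i ^ 2 - a) (i : ℤ) :
    s (i + 4) = s i := by
  classical
  have hE5 : 5 * N ≤ E := by
    rcases hor with h | h
    · linarith
    · exact h.1
  have hE0 : 0 < E := by linarith
  set e : ℤ → Bool := fun i => decide (g ∣ s i - s 0) with he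
  set u : ℤ → ℤ := fun i => sg (e i) * s i with hu
  have hsu : ∀ i, s i = sg (e i) * u i := by
    intro i
    simp only [hu]
    have := sg_sq (e i)
    linear_combination (-s i) * this
  have husq : ∀ i, u i ^ 2 = s i ^ 2 := by
    intro i
    simp only [hu]
    have := sg_sq (e i)
    linear_combination (s i ^ 2) * this
  have hudiv : ∀ i, g ∣ u i - s 0 := by
    intro i
    simp only [hu, he]
    by_cases h : g ∣ s i - s 0
    · simp only [h, decide_true, sg, if_true, one_mul]
    · simp only [h, decide_false, sg, Bool.false_eq_true, if_false]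
      have h1 := (hcl i).resolve_left h
      have h2 : -1 * s i - s 0 = -(s i + s 0) := by ring
      rw [h2]
      exact (dvd_neg).mpr h1
  choose m hm' using fun i => hudiv i
  have hum : ∀ i, u i = s 0 + g * m i := by
    intro i
    linarith [hm' i]
  obtain ⟨n, hn⟩ := hgN
  set w : ℤ → ℤ := fun i => ind (e (i + 1)) - ind (e (i - 1)) with hw
  have hrec' : ∀ i, N * (sg (e (i + 1)) * u (i + 1) - sg (e (i - 1)) * u (i - 1)) = u i ^ 2 - a := by
    intro i
    rw [← hsu, ← hsu, husq i]
    exact hrec i
  have huodd : 2 ∣ N → ∀ i, u i % 2 = 1 := by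
    intro h2 i
    have h3 := hodd h2 i
    simp only [hu]
    cases e i
    · simp only [sg, Bool.false_eq_true, if_false]
      omega
    · simp only [sg, if_true]
      omega
  -- congruence
  have hdq : ∀ i j, E ∣ (u i - N * w i) - (u j - N * w j) := by
    intro i j
    apply hE
    · have h1 := hrec' i
      have h2 := hrec' j
      have d1 := sg_sub (e (i + 1)) (e (i - 1))
      have d2 := sg_sub (e (j + 1)) (e (j - 1))
      have m1 := hum (i + 1)
      have m2 := hum (i - 1)
      have m3 := hum (j + 1)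
      have m4 := hum (j - 1)
      rw [m1, m2] at h1
      rw [m3, m4] at h2
      have m5 := hum i
      have m6 := hum j
      have h3 : s 0 * (2 * ((u i - N * w i) - (u j - N * w j)))
          = g ^ 2 * (n * (sg (e (i + 1)) * m (i + 1) - sg (e (i - 1)) * m (i - 1))
            - n * (sg (e (j + 1)) * m (j + 1) - sg (e (j - 1)) * m (j - 1)) - (m i ^ 2 - m j ^ 2)) := by
        simp only [hw]
        rw [m5] at h1 ⊢
        rw [m6] at h2 ⊢
        rw [hn] at h1 h2 ⊢
        linear_combination (-1) * h1 + h2 + (g * n) * s 0 * d1 - (g * n) * s 0 * d2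
      have h4 : g ^ 2 ∣ s 0 * (2 * ((u i - N * w i) - (u j - N * w j))) := ⟨_, h3⟩
      exact ((hcop.symm).pow_left).dvd_of_dvd_mul_left h4
    · intro h2
      have a1 := huodd h2 i
      have a2 := huodd h2 j
      obtain ⟨N', hN'⟩ := h2
      have e1 : (u i - N * w i) - (u j - N * w j) = (u i - u j) - 2 * (N' * (w i - w j)) := by
        rw [hN']; ring
      rw [e1]
      apply dvd_sub
      · omega
      · exact dvd_mul_right _ _
  have hune : ∀ i, u i ≠ 0 := by
    intro i h0
    have h1 := hudiv i
    rw [h0, zero_sub, dvd_neg] at h1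
    exact hg2 (h1.mul_left 2)
  have huabs : ∀ i, |u i| ≤ M := by
    intro i
    have : |u i| = |s i| := by
      rw [← sq_eq_sq₀ (abs_nonneg _) (abs_nonneg _), sq_abs, sq_abs, husq i]
    rw [this]
    exact hM i
  -- real part
  have hreal : ∀ σ : ℤ, (σ = 1 ∨ σ = -1) → ∀ i j, 0 < σ * u i → 0 < σ * u j →
      u i - N * w i ≠ u j - N * w j → σ * u j < σ * u i → False := by
    intro σ hσ i j hi hj hne hlt
    have hσ2 : σ ^ 2 = 1 := by rcases hσ with h | h <;> rw [h] <;> norm_num
    have habsσ : |σ| = 1 := by rcases hσ with h | h <;> rw [h] <;> norm_num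
    have h1 := hdq i j
    obtain ⟨t, ht⟩ := h1
    have ht0 : σ * t ≠ 0 := by
      intro h0
      have : t = 0 := by
        rcases hσ with h | h <;> rw [h] at h0 <;> linarith
      subst this
      apply hne
      linarith
    have hw2 : |σ * (w i - w j)| ≤ 2 := by
      rw [abs_mul, habsσ, one_mul]
      exact ind_diff _ _ _ _
    have h3 : σ * u i - σ * u j = E * (σ * t) + N * (σ * (w i - w j)) := by linear_combination σ * ht
    have hw3 := abs_le.mp hw2
    generalize σ * t = T at *
    generalize σ * (w i - w j) = W at *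
    have hui : (σ * u i) ^ 2 = u i ^ 2 := by rw [mul_pow, hσ2, one_mul]
    have huj : (σ * u j) ^ 2 = u j ^ 2 := by rw [mul_pow, hσ2, one_mul]
    have huia : σ * u i ≤ M := by
      have h := le_abs_self (σ * u i)
      rw [abs_mul, habsσ, one_mul] at h
      exact h.trans (huabs i)
    generalize σ * u i = UI at *
    generalize σ * u j = UJ at *
    have ht1 : 1 ≤ T := by
      by_contra hcon
      have : T ≤ -1 := by
        rcases lt_or_gt_of_ne ht0 with h | h
        · linarith [Int.le_sub_one_of_lt h]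
        · exact absurd (Int.add_one_le_iff.mpr h) (by simpa using hcon)
      nlinarith
    have h6 : E - 2 * N ≤ UI - UJ := by nlinarith
    have h8 := hm j
    rw [← husq j, ← huj] at h8
    exact gap_ineq N M E UI UJ hN hj huia h6 h8 hor
  have hsame : ∀ i j, (0 < u i ↔ 0 < u j) → u i - N * w i = u j - N * w j := by
    intro i j hij
    by_contra hne
    rcases lt_trichotomy (u i) (u j) with h | h | h
    · rcases lt_or_gt_of_ne (hune i) with hi | hi
      · have hj : u j < 0 := by
          rcases lt_or_gt_of_ne (hune j) with hj | hj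
          · exact hj
          · exact absurd (hij.mpr hj) (not_lt.mpr hi.le)
        exact hreal (-1) (Or.inr rfl) i j (by linarith) (by linarith) hne (by linarith)
      · have hj := hij.mp hi
        exact hreal 1 (Or.inl rfl) j i (by linarith) (by linarith) (Ne.symm hne) (by linarith)
    · obtain ⟨t, ht⟩ := hdq i j
      have hw2 := abs_le.mp (ind_diff (e (i + 1)) (e (i - 1)) (e (j + 1)) (e (j - 1)))
      have hw3 : N * (w i - w j) = -(E * t) := by linarith
      have hw4 : N * ((ind (e (i + 1)) - ind (e (i - 1))) - (ind (e (j + 1)) - ind (e (j - 1)))) = -(E * t) := hw3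
      generalize (ind (e (i + 1)) - ind (e (i - 1))) - (ind (e (j + 1)) - ind (e (j - 1))) = X at hw2 hw4
      have ht0 : t = 0 := by
        rcases lt_trichotomy t 0 with h' | h' | h'
        · have : t ≤ -1 := by linarith [Int.le_sub_one_of_lt h']
          nlinarith [hw2.1, hw2.2]
        · exact h'
        · have : 1 ≤ t := h'
          nlinarith [hw2.1, hw2.2]
      apply hne
      rw [ht0] at ht
      linarith
    · rcases lt_or_gt_of_ne (hune i) with hi | hi
      · have hj : u j < 0 := by
          rcases lt_or_gt_of_ne (hune j) with hj | hj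
          · exact hj
          · exact absurd (hij.mpr hj) (not_lt.mpr hi.le)
        exact hreal (-1) (Or.inr rfl) j i (by linarith) (by linarith) (Ne.symm hne) (by linarith)
      · have hj := hij.mp hi
        exact hreal 1 (Or.inl rfl) i j (by linarith) (by linarith) hne (by linarith)
  by_cases hall : ∀ j, u j - N * w j = u 0 - N * w 0
  · refine const_case s u e N a (2 * (u 0 - N * w 0)) hN.ne' hsu ?_ hrec i
    intro i
    have h1 := hall i
    rw [sg_sub]
    simp only [hw] at h1 ⊢
    linear_combination 2 * h1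
  · exfalso
    push Not at hall
    obtain ⟨j, hj⟩ := hall
    obtain ⟨t, ht⟩ := hdq j 0
    have ht0 : t ≠ 0 := by
      rintro rfl
      apply hj
      linarith
    set k : ℤ → Bool := fun i => decide (u i - N * w i ≠ u 0 - N * w 0) with hk
    have hkt : ∀ i, u i - N * w i = u 0 - N * w 0 + (E * t) * ind (k i) := by
      intro i
      by_cases h : u i - N * w i = u 0 - N * w 0
      · simp only [hk, h, ne_eq, not_true_eq_false, decide_false, ind, Bool.false_eq_true, if_false]
        ring
      · have h1 : ¬ (0 < u i ↔ 0 < u 0) := fun h' => h (hsame i 0 h')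
        have h2 : ¬ (0 < u j ↔ 0 < u 0) := fun h' => hj (hsame j 0 h')
        have h3 : (0 < u i ↔ 0 < u j) := by tauto
        have h4 := hsame i j h3
        simp only [hk, ne_eq, h, not_false_eq_true, decide_true, ind, if_true]
        linarith
    have hgN : g ∣ N := ⟨n, hn⟩
    have hB : ¬ g ∣ 2 * (u 0 - N * w 0) := by
      intro h
      apply hg2
      have h1 := hudiv 0
      have h2 : 2 * s 0 = 2 * (u 0 - N * w 0) - 2 * (u 0 - s 0) + N * (2 * w 0) := by ring
      rw [h2]
      exact dvd_add (dvd_sub h (h1.mul_left 2)) (hgN.mul_right _)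
    have hQ : 5 * N ≤ |(-(E * t))| := by
      rw [abs_neg, abs_mul]
      have h1 : 1 ≤ |t| := Int.one_le_abs ht0
      have h2 : 5 * N ≤ |E| := le_trans hE5 (le_abs_self E)
      nlinarith [abs_nonneg E, abs_nonneg t]
    have hconst := two_class s u e k N a (2 * (u 0 - N * w 0)) (-(E * t)) g hN hQ hB hgN
      ((hgE.mul_right t).neg_right) hsu (by
      intro i
      rw [sg_sub]
      have h1 := hkt i
      simp only [hw] at h1 ⊢
      linear_combination 2 * h1) hrec
    have hk0 : ∀ i, k i = k 0 := by
      intro i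
      induction i using Int.induction_on with
      | zero => rfl
      | succ i ih => rw [← hconst]; exact ih
      | pred i ih =>
        have := hconst (-(i : ℤ) - 1)
        rw [show -(i : ℤ) - 1 + 1 = -(i : ℤ) by ring] at this
        rw [this]
        exact ih
    have h1 := hk0 j
    simp only [hk] at h1
    simp [hj] at h1

end Pool.Agent.Helper590.Henon
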