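import Mathlib

set_option autoImplicit false

namespace Pool.Agent.Helper590.Henon

/-- follow an orbit until it closes, leaves the box or stops being integral -/
def run (N M a p q : ℤ) (L : List ℕ) : ℕ → ℕ → ℤ → ℤ → Bool
  | 0, _, _, _ => false
  | f + 1, st, x, y =>
    if (y * y - a) % N = 0 then
      if x + (y * y - a) / N ≤ M ∧ -M ≤ x + (y * y - a) / N then
        if y = p ∧ x + (y * y - a) / N = q ∧ (st + 1) ∈ L then true
        else run N M a p q L f (st + 1) y (x + (y * y - a) / N)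
      else true
    else true

theorem run_sound (s : ℤ → ℤ) (N a M : ℤ) (hN : 0 < N) (L : List ℕ)
    (hM : ∀ i, |s i| ≤ M)
    (hrec : ∀ i, N * (s (i + 1) - s (i - 1)) = s i ^ 2 - a) (i0 : ℤ) (p q : ℤ)
    (hp : s i0 = p) (hq : s (i0 + 1) = q) :
    ∀ (f st : ℕ) (x y : ℤ), s (i0 + st) = x → s (i0 + st + 1) = y →
      run N M a p q L f st x y = true →
      ∃ j ∈ L, s (i0 + j) = s i0 ∧ s (i0 + 1 + j) = s (i0 + 1) := by
  intro f
  induction f with
  | zero => intro st x y _ _ h; simp [run] at h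
  | succ f ih =>
    intro st x y hx hy h
    have h1 := hrec (i0 + st + 1)
    rw [show i0 + st + 1 - 1 = i0 + st by ring, hx, hy] at h1
    have hz : x + (y * y - a) / N = s (i0 + st + 1 + 1) := by
      have h2 : y * y - a = N * (s (i0 + st + 1 + 1) - x) := by rw [h1]; ring
      rw [h2, Int.mul_ediv_cancel_left _ hN.ne']
      ring
    have hmod : (y * y - a) % N = 0 := by
      have h2 : y * y - a = N * (s (i0 + st + 1 + 1) - x) := by rw [h1]; ring
      rw [h2]
      exact Int.mul_emod_right _ _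
    unfold run at h
    rw [if_pos hmod, hz] at h
    have hb := abs_le.mp (hM (i0 + st + 1 + 1))
    rw [if_pos ⟨hb.2, hb.1⟩] at h
    split_ifs at h with hc
    · refine ⟨st + 1, hc.2.2, ?_, ?_⟩
      · rw [hp, ← hc.1, ← hy]
        push_cast
        congr 1
        ring
      · rw [hq, ← hc.2.1]
        push_cast
        congr 1
        ring
    · apply ih (st + 1) y (s (i0 + st + 1 + 1)) ?_ ?_ h
      · rw [← hy]
        push_cast
        congr 1
        ring
      · push_cast
        congr 1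
        ring

/-- candidate values of an orbit with maximum M -/
def cand (N D : ℤ) (M : ℕ) : List ℤ :=
  (List.range (4 * N.toNat + 1)).flatMap (fun k =>
    if k ≤ M ∧ (((M : ℤ) - k) * ((M : ℤ) - k) - (M : ℤ) * M) % D = 0 ∧
        (M : ℤ) * M ≤ ((M : ℤ) - k) * ((M : ℤ) - k) + 4 * N * M then
      [(M : ℤ) - k, -((M : ℤ) - k)] else [])

theorem mem_cand (N D : ℤ) (M : ℕ) (x : ℤ) (hN : 0 < N) (h1 : |x| ≤ M)
    (h2 : D ∣ x ^ 2 - (M : ℤ) ^ 2) (h3 : (M : ℤ) ^ 2 ≤ x ^ 2 + 4 * N * M) : x ∈ cand N D M := by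
  unfold cand
  rw [List.mem_flatMap]
  have habs : 0 ≤ |x| := abs_nonneg x
  obtain ⟨k, hk⟩ : ∃ k : ℕ, (k : ℤ) = M - |x| := ⟨((M : ℤ) - |x|).toNat, by rw [Int.toNat_of_nonneg]; linarith⟩
  have hxk : |x| = (M : ℤ) - k := by linarith
  have hsq : x ^ 2 = ((M : ℤ) - k) * ((M : ℤ) - k) := by
    rw [← hxk, ← sq_abs]; ring
  refine ⟨k, ?_, ?_⟩
  · rw [List.mem_range]
    have h4 : (k : ℤ) ≤ 4 * N := by
      rcases Nat.eq_zero_or_pos M with h0 | h0
      · subst h0
        have : (k : ℤ) ≤ 0 := by rw [hk]; push_cast; linarith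
        linarith
      · have hM0 : (0 : ℤ) < M := by exact_mod_cast h0
        by_contra hcon
        have hcon' : 4 * N < k := not_le.mp hcon
        rw [hsq] at h3
        have hkM : (k : ℤ) ≤ M := by rw [hk]; linarith
        nlinarith
    have h5 : ((4 * N.toNat + 1 : ℕ) : ℤ) = 4 * N + 1 := by
      push_cast
      rw [Int.toNat_of_nonneg hN.le]
    have h6 : (k : ℤ) < ((4 * N.toNat + 1 : ℕ) : ℤ) := by rw [h5]; linarith
    exact_mod_cast h6
  · have hkM : k ≤ M := by
      have : (k : ℤ) ≤ M := by rw [hk]; linarith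
      exact_mod_cast this
    rw [if_pos]
    · rcases abs_choice x with h | h
      · rw [h] at hxk
        simp [hxk]
      · rw [h] at hxk
        have : x = -((M : ℤ) - k) := by linarith
        simp [this]
    · refine ⟨hkM, ?_, ?_⟩
      · apply Int.emod_eq_zero_of_dvd
        rw [← hsq]
        have : (M : ℤ) * M = (M : ℤ) ^ 2 := by ring
        rw [this]
        exact h2
      · rw [← hsq]
        have : (M : ℤ) * M = (M : ℤ) ^ 2 := by ring
        rw [this]
        exact h3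

/-- the check for one value of the maximum -/
def chkM (N D : ℤ) (L : List ℕ) (M : ℕ) : Bool :=
  if Int.gcd M N = 1 then
    (cand N D M).all (fun x0 => (cand N D M).all (fun x2 =>
      run N M ((M : ℤ) * M - N * (x2 - x0)) M x2 L 20 0 M x2 &&
      run N M ((M : ℤ) * M - N * (x2 - x0)) (-M) x2 L 20 0 (-M) x2))
  else true

theorem chk_sound (s : ℤ → ℤ) (N D a : ℤ) (M : ℕ) (hN : 0 < N) (L : List ℕ)
    (hM : ∀ i, |s i| ≤ M) (hm : ∀ i, (M : ℤ) ^ 2 ≤ s i ^ 2 + 4 * N * M)
    (hD : ∀ i, D ∣ s i ^ 2 - (M : ℤ) ^ 2)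
    (hcop : ∀ i, IsCoprime (s i) N)
    (hrec : ∀ i, N * (s (i + 1) - s (i - 1)) = s i ^ 2 - a)
    (i0 : ℤ) (hi0 : |s i0| = M) (hchk : chkM N D L M = true) :
    ∃ j ∈ L, s (i0 + j) = s i0 ∧ s (i0 + 1 + j) = s (i0 + 1) := by
  unfold chkM at hchk
  have hg : Int.gcd M N = 1 := by
    rw [← Int.isCoprime_iff_gcd_eq_one, ← hi0]
    rcases abs_choice (s i0) with h | h
    · rw [h]; exact hcop i0
    · rw [h]; exact (hcop i0).neg_left
  rw [if_pos hg, List.all_eq_true] at hchk
  have h1 := hchk (s (i0 - 1)) (mem_cand N D M _ hN (hM _) (hD _) (hm _))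
  rw [List.all_eq_true] at h1
  have h2 := h1 (s (i0 + 1)) (mem_cand N D M _ hN (hM _) (hD _) (hm _))
  rw [Bool.and_eq_true] at h2
  have ha : (M : ℤ) * M - N * (s (i0 + 1) - s (i0 - 1)) = a := by
    have h3 := hrec i0
    have h4 : s i0 ^ 2 = (M : ℤ) * M := by
      rw [← sq_abs, hi0]; ring
    rw [h4] at h3
    linarith
  rw [ha] at h2
  rcases abs_choice (s i0) with h | h
  · have h5 : s i0 = M := by rw [← h]; exact hi0
    exact run_sound s N a M hN L hM hrec i0 M (s (i0 + 1)) h5 rfl 20 0 M (s (i0 + 1))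
      (by simpa using h5) (by simp) h2.1
  · have h5 : s i0 = -M := by
      rw [hi0] at h
      linarith
    exact run_sound s N a M hN L hM hrec i0 (-M) (s (i0 + 1)) h5 rfl 20 0 (-M) (s (i0 + 1))
      (by simpa using h5) (by simp) h2.2

end Pool.Agent.Helper590.Henon
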