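import Mathlib
import Pool.Agent.Helper590.Henon.Finite

set_option autoImplicit false

namespace Pool.Agent.Helper590.Henon

theorem check1 : (List.range 8).all (chkM 1 1 [1, 2, 3, 4, 6, 8]) = true := by decide +kernel

theorem check2 : (List.range 15).all (chkM 2 4 [1, 2, 3, 4, 6, 8]) = true := by decide +kernel

theorem check3 : (List.range 53).all (chkM 3 3 [1, 2, 3, 4, 6, 8]) = true := by decide +kernel

theorem check4 : (List.range 50).all (chkM 4 8 [1, 2, 3, 4, 6, 8]) = true := by decide +kernel

theorem check5 : (List.range 23).all (chkM 5 5 [1, 2, 4]) = true := by decide +kernel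

end Pool.Agent.Helper590.Henon
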