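import Mathlib
import Pool.Agent.Helper590.Henon.Finite

set_option autoImplicit false

namespace Pool.Agent.Helper590.Henon

theorem check6 : (List.range 105).all (chkM 6 12 [1, 2, 4]) = true := by decide +kernel

theorem check10 : (List.range 46).all (chkM 10 20 [1, 2, 4]) = true := by decide +kernel

end Pool.Agent.Helper590.Henon
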