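import Mathlib
import Pool.Agent.Helper590.Henon.Finite

set_option autoImplicit false

namespace Pool.Agent.Helper590.Henon

theorem check8 : (List.range 180).all (chkM 8 16 [1, 2, 4]) = true := by decide +kernel

end Pool.Agent.Helper590.Henon
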