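import Mathlib
import Pool.Agent.Helper590.Henon.Cases
import Pool.Agent.Helper590.Henon.Check

set_option autoImplicit false

namespace Pool.Agent.Helper590.Henon

theorem exists_max (g : ℤ → ℤ) (P : ℕ) (hP : 0 < P) (hper : ∀ i, g (i + P) = g i) :
    ∃ i0, ∀ i, g i ≤ g i0 := by
  obtain ⟨n, _, hn⟩ := (Finset.range P).exists_max_image (fun n : ℕ => g n) ⟨0, Finset.mem_range.mpr hP⟩
  refine ⟨n, fun i => ?_⟩
  have hp : Function.Periodic g (P : ℤ) := hper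
  have h1 : g (i % (P : ℤ) + (i / P) * (P : ℤ)) = g (i % (P : ℤ)) := by
    have := (hp.int_mul (i / P)) (i % P)
    rwa [Int.cast_id] at this
  have hP' : (P : ℤ) ≠ 0 := by exact_mod_cast hP.ne'
  have h2 : i % (P : ℤ) + (i / P) * (P : ℤ) = i := by
    have := Int.emod_add_mul_ediv i (P : ℤ)
    linarith [this, mul_comm (P : ℤ) (i / P)]
  rw [h2] at h1
  rw [h1]
  have h3 : 0 ≤ i % (P : ℤ) := Int.emod_nonneg _ hP'
  have h4 : i % (P : ℤ) < P := Int.emod_lt_of_pos _ (by exact_mod_cast hP)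
  have h5 : ((i % (P : ℤ)).toNat : ℤ) = i % (P : ℤ) := Int.toNat_of_nonneg h3
  have h6 := hn (i % (P : ℤ)).toNat (Finset.mem_range.mpr (by
    have : ((i % (P : ℤ)).toNat : ℤ) < (P : ℤ) := by rw [h5]; exact h4
    exact_mod_cast this))
  simp only [h5] at h6
  exact h6

/-- the standing hypotheses for an integral orbit -/
structure Orb (s : ℤ → ℤ) (N : ℕ) (a : ℤ) (M : ℕ) (i0 : ℤ) : Prop where
  hN : 0 < N
  hM : ∀ i, |s i| ≤ M
  hi0 : |s i0| = M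
  hcop : ∀ i, IsCoprime (s i) (N : ℤ)
  hrec : ∀ i, (N : ℤ) * (s (i + 1) - s (i - 1)) = s i ^ 2 - a

theorem Orb.hm {s : ℤ → ℤ} {N : ℕ} {a : ℤ} {M : ℕ} {i0 : ℤ} (h : Orb s N a M i0) (i : ℤ) :
    (M : ℤ) ^ 2 ≤ s i ^ 2 + 4 * N * M := by
  have h1 := h.hrec i
  have h2 := h.hrec i0
  have h3 := abs_le.mp (h.hM (i + 1))
  have h4 := abs_le.mp (h.hM (i - 1))
  have h5 := abs_le.mp (h.hM (i0 + 1))
  have h6 := abs_le.mp (h.hM (i0 - 1))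
  have h7 : s i0 ^ 2 = (M : ℤ) ^ 2 := by rw [← sq_abs, h.hi0]
  have hN : (0 : ℤ) < N := by exact_mod_cast h.hN
  rw [h7] at h2
  nlinarith

theorem Orb.div1 {s : ℤ → ℤ} {N : ℕ} {a : ℤ} {M : ℕ} {i0 : ℤ} (h : Orb s N a M i0) (i j : ℤ) :
    (N : ℤ) ∣ s i ^ 2 - s j ^ 2 := by
  have h1 := h.hrec i
  have h2 := h.hrec j
  exact ⟨(s (i + 1) - s (i - 1)) - (s (j + 1) - s (j - 1)), by linear_combination (-1) * h1 + h2⟩

theorem Orb.odd {s : ℤ → ℤ} {N : ℕ} {a : ℤ} {M : ℕ} {i0 : ℤ} (h : Orb s N a M i0)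
    (h2 : 2 ∣ N) (i : ℤ) : s i % 2 = 1 := by
  have h3 := h.hcop i
  have h4 : (2 : ℤ) ∣ (N : ℤ) := by exact_mod_cast h2
  have h5 : IsCoprime (s i) 2 := h3.of_isCoprime_of_dvd_right h4
  by_contra hcon
  have h6 : s i % 2 = 0 := by omega
  have h7 : (2 : ℤ) ∣ s i := Int.dvd_of_emod_eq_zero h6
  have h8 := h5.isUnit_of_dvd' h7 dvd_rfl
  rcases Int.isUnit_iff.mp h8 with h9 | h9 <;> norm_num at h9

theorem Orb.div2 {s : ℤ → ℤ} {N : ℕ} {a : ℤ} {M : ℕ} {i0 : ℤ} (h : Orb s N a M i0)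
    (h2 : 2 ∣ N) (i j : ℤ) :
    (2 * N : ℤ) ∣ s i ^ 2 - s j ^ 2 := by
  have h1 := h.hrec i
  have h3 := h.hrec j
  have e1 := h.odd h2 (i + 1)
  have e2 := h.odd h2 (i - 1)
  have e3 := h.odd h2 (j + 1)
  have e4 := h.odd h2 (j - 1)
  obtain ⟨y, hy⟩ : (2 : ℤ) ∣ (s (i + 1) - s (i - 1)) - (s (j + 1) - s (j - 1)) := by omega
  refine ⟨y, ?_⟩
  have : s i ^ 2 - s j ^ 2 = N * ((s (i + 1) - s (i - 1)) - (s (j + 1) - s (j - 1))) := by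
    linear_combination (-1) * h1 + h3
  rw [this, hy]
  ring

theorem Orb.divM1 {s : ℤ → ℤ} {N : ℕ} {a : ℤ} {M : ℕ} {i0 : ℤ} (h : Orb s N a M i0) (i : ℤ) :
    (N : ℤ) ∣ s i ^ 2 - (M : ℤ) ^ 2 := by
  have h1 := h.div1 i i0
  have h7 : s i0 ^ 2 = (M : ℤ) ^ 2 := by rw [← sq_abs, h.hi0]
  rwa [h7] at h1

theorem Orb.divM2 {s : ℤ → ℤ} {N : ℕ} {a : ℤ} {M : ℕ} {i0 : ℤ} (h : Orb s N a M i0)
    (h2 : 2 ∣ N) (i : ℤ) :
    (2 * N : ℤ) ∣ s i ^ 2 - (M : ℤ) ^ 2 := by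
  have h1 := h.div2 h2 i i0
  have h7 : s i0 ^ 2 = (M : ℤ) ^ 2 := by rw [← sq_abs, h.hi0]
  rwa [h7] at h1

/-- conclusion: the orbit closes after j steps with j in L -/
def Closes (s : ℤ → ℤ) (L : List ℕ) : Prop :=
  ∃ i : ℤ, ∃ j ∈ L, s (i + j) = s i ∧ s (i + 1 + j) = s (i + 1)

theorem closes_of_four {s : ℤ → ℤ} {L : List ℕ} (h4 : 4 ∈ L) (h : ∀ i, s (i + 4) = s i) : Closes s L := by
  refine ⟨0, 4, h4, ?_, ?_⟩
  · exact h 0
  · exact h (0 + 1)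

/-- general large case, step 1 -/
theorem Orb.big1 {s : ℤ → ℤ} {N : ℕ} {a : ℤ} {M : ℕ} {i0 : ℤ} (h : Orb s N a M i0)
    (h1 : 25 * N < 4 * M) (h2 : 10 * N ^ 2 + 5 * N ≤ 2 * M) (i : ℤ) : s (i + 4) = s i := by
  refine big_case s N a M 1 (by exact_mod_cast h.hN) one_pos h.hM h.hm (by exact_mod_cast h1) ?_
    (fun i j w => one_dvd _) h.hrec i
  have : (10 * (N : ℤ) ^ 2 + 5 * N) ≤ 2 * M := by exact_mod_cast h2
  linarith

/-- general large case for even N -/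
theorem Orb.big2 {s : ℤ → ℤ} {N : ℕ} {a : ℤ} {M : ℕ} {i0 : ℤ} (h : Orb s N a M i0)
    (he : 2 ∣ N)
    (h1 : 25 * N < 4 * M) (h2 : 10 * N ^ 2 + 10 * N ≤ 4 * M) (i : ℤ) : s (i + 4) = s i := by
  refine big_case s N a M 2 (by exact_mod_cast h.hN) two_pos h.hM h.hm (by exact_mod_cast h1) ?_
    ?_ h.hrec i
  · have : (10 * (N : ℤ) ^ 2 + 10 * N) ≤ 4 * M := by exact_mod_cast h2
    linarith
  · intro i j w
    have e1 := h.odd he i
    have e2 := h.odd he j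
    obtain ⟨n, hn⟩ := he
    have hn' : (N : ℤ) = 2 * n := by exact_mod_cast hn
    rw [hn']
    have a1 : |s i| % 2 = 1 := by
      rcases abs_choice (s i) with h' | h' <;> rw [h'] <;> omega
    have a2 : |s j| % 2 = 1 := by
      rcases abs_choice (s j) with h' | h' <;> rw [h'] <;> omega
    obtain ⟨y, hy⟩ : (2 : ℤ) ∣ |s i| - |s j| := by omega
    exact ⟨y - n * w, by rw [hy]; ring⟩

theorem Orb.small {s : ℤ → ℤ} {N : ℕ} {a : ℤ} {M : ℕ} {i0 : ℤ} (h : Orb s N a M i0)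
    (D : ℤ) (L : List ℕ) (T : ℕ) (hT : M < T) (hD : ∀ i, D ∣ s i ^ 2 - (M : ℤ) ^ 2)
    (hchk : (List.range T).all (chkM N D L) = true) : Closes s L := by
  rw [List.all_eq_true] at hchk
  have h1 := hchk M (List.mem_range.mpr hT)
  have h2 := chk_sound s N D a M (by exact_mod_cast h.hN) L h.hM h.hm hD h.hcop h.hrec i0 h.hi0 h1
  exact ⟨i0, h2⟩

end Pool.Agent.Helper590.Henon
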