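import Mathlib
import Pool.Agent.Helper590.Henon.IntMain

set_option autoImplicit false

namespace Pool.Agent.Helper590.Henon

/-- the Henon map as a permutation -/
def F (c : ℚ) : Equiv.Perm (ℚ × ℚ) where
  toFun q := (q.2, q.2 ^ 2 + c + q.1)
  invFun q := (q.2 - q.1 ^ 2 - c, q.1)
  left_inv := by
    intro q
    simp only
    ext
    · simp only
      ring
    · simp
  right_inv := by
    intro q
    simp only
    ext
    · simp
    · simp

/-- the coordinate sequence of an orbit -/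
def xs (c : ℚ) (q : ℚ × ℚ) (i : ℤ) : ℚ := ((F c ^ i) q).1

theorem F_succ (c : ℚ) (q : ℚ × ℚ) (i : ℤ) : (F c ^ (i + 1)) q = F c ((F c ^ i) q) := by
  rw [add_comm, zpow_one_add, Equiv.Perm.mul_apply]

theorem snd_eq (c : ℚ) (q : ℚ × ℚ) (i : ℤ) : ((F c ^ i) q).2 = xs c q (i + 1) := by
  unfold xs
  rw [F_succ]
  rfl

theorem xs_rec (c : ℚ) (q : ℚ × ℚ) (i : ℤ) :
    xs c q (i + 1) - xs c q (i - 1) = xs c q i ^ 2 + c := by
  have h1 : xs c q (i + 1) = ((F c ^ (i - 1 + 1)) q).2 := by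
    rw [snd_eq]; congr 1; ring
  rw [F_succ] at h1
  have h2 : (F c ((F c ^ (i - 1)) q)).2 = ((F c ^ (i - 1)) q).2 ^ 2 + c + ((F c ^ (i - 1)) q).1 := rfl
  rw [h2, snd_eq] at h1
  have h3 : xs c q (i - 1 + 1) = xs c q i := by congr 1; ring
  rw [h3] at h1
  rw [h1]
  unfold xs
  ring

theorem pow_eq (c : ℚ) (q : ℚ × ℚ) (n : ℕ) :
    (F c ^ (n : ℤ)) q = (fun q : ℚ × ℚ => (q.2, q.2 ^ 2 + c + q.1))^[n] q := by
  rw [zpow_natCast, ← Equiv.Perm.iterate_eq_pow]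
  rfl

theorem closes_dvd (c : ℚ) (q : ℚ × ℚ) (i : ℤ) (j : ℕ)
    (h1 : xs c q (i + j) = xs c q i) (h2 : xs c q (i + 1 + j) = xs c q (i + 1)) :
    Function.minimalPeriod (fun q : ℚ × ℚ => (q.2, q.2 ^ 2 + c + q.1)) q ∣ j := by
  apply Function.IsPeriodicPt.minimalPeriod_dvd
  unfold Function.IsPeriodicPt Function.IsFixedPt
  rw [← pow_eq]
  have h3 : (F c ^ (i + (j : ℤ))) q = (F c ^ i) q := by
    ext
    · exact h1
    · rw [snd_eq, snd_eq, show i + (j : ℤ) + 1 = i + 1 + j by ring]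
      exact h2
  rw [zpow_add, Equiv.Perm.mul_apply] at h3
  exact (F c ^ i).injective h3

theorem xs_per (c : ℚ) (q : ℚ × ℚ) (P : ℕ)
    (hP : P = Function.minimalPeriod (fun q : ℚ × ℚ => (q.2, q.2 ^ 2 + c + q.1)) q) (i : ℤ) :
    xs c q (i + P) = xs c q i := by
  have h1 : (F c ^ (P : ℤ)) q = q := by
    rw [pow_eq, hP]
    exact Function.isPeriodicPt_minimalPeriod _ q
  unfold xs
  rw [zpow_add, Equiv.Perm.mul_apply, h1]

theorem exists_orb (c : ℚ) (q : ℚ × ℚ)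
    (hq : 0 < Function.minimalPeriod (fun q : ℚ × ℚ => (q.2, q.2 ^ 2 + c + q.1)) q) :
    ∃ (s : ℤ → ℤ) (N : ℕ) (a : ℤ) (M : ℕ) (i0 : ℤ), Orb s N a M i0 ∧
      (∀ i, (N : ℚ) * xs c q i = s i) ∧ c.den = N ^ 2 ∧ (a : ℚ) = -((N : ℚ) ^ 2 * c) ∧
      (∃ i1, ∀ i, s i ≤ s i1) := by
  classical
  set P := Function.minimalPeriod (fun q : ℚ × ℚ => (q.2, q.2 ^ 2 + c + q.1)) q with hPdef
  have hper := xs_per c q P hPdef
  have hred : ∀ i, ∃ k ∈ Finset.range P, xs c q i = xs c q (k : ℕ) := by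
    intro i
    have hp : Function.Periodic (xs c q) (P : ℤ) := hper
    have h1 : xs c q (i % (P : ℤ) + (i / P) * (P : ℤ)) = xs c q (i % (P : ℤ)) := by
      have := (hp.int_mul (i / P)) (i % P)
      rwa [Int.cast_id] at this
    have hP' : (P : ℤ) ≠ 0 := by exact_mod_cast hq.ne'
    have h2 : i % (P : ℤ) + (i / P) * (P : ℤ) = i := by
      have := Int.emod_add_mul_ediv i (P : ℤ)
      linarith [this, mul_comm (P : ℤ) (i / P)]
    rw [h2] at h1
    have h3 : 0 ≤ i % (P : ℤ) := Int.emod_nonneg _ hP'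
    have h4 : i % (P : ℤ) < P := Int.emod_lt_of_pos _ (by exact_mod_cast hq)
    have h5 : ((i % (P : ℤ)).toNat : ℤ) = i % (P : ℤ) := Int.toNat_of_nonneg h3
    refine ⟨(i % (P : ℤ)).toNat, Finset.mem_range.mpr ?_, ?_⟩
    · have : ((i % (P : ℤ)).toNat : ℤ) < (P : ℤ) := by rw [h5]; exact h4
      exact_mod_cast this
    · rw [h5]; exact h1
  have hex : ∃ n : ℕ, 0 < n ∧ ∀ i, ∃ y : ℤ, (n : ℚ) * xs c q i = y := by
    refine ⟨∏ k ∈ Finset.range P, (xs c q (k : ℕ)).den, Finset.prod_pos (fun k _ => (xs c q _).den_pos), ?_⟩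
    intro i
    obtain ⟨k, hk, hik⟩ := hred i
    obtain ⟨m, hm⟩ := Finset.dvd_prod_of_mem (fun k : ℕ => (xs c q (k : ℕ)).den) hk
    refine ⟨m * (xs c q (k : ℕ)).num, ?_⟩
    rw [hik, hm]
    push_cast
    have h1 := Rat.den_mul_eq_num (xs c q (k : ℕ))
    calc ((xs c q (k : ℕ)).den : ℚ) * m * xs c q (k : ℕ) = m * ((xs c q (k : ℕ)).den * xs c q (k : ℕ)) := by ring
      _ = _ := by rw [h1]
  obtain ⟨N, ⟨hN, hNint⟩, hmin⟩ : ∃ N : ℕ, (0 < N ∧ ∀ i, ∃ y : ℤ, (N : ℚ) * xs c q i = y) ∧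
      ∀ m, m < N → ¬ (0 < m ∧ ∀ i, ∃ y : ℤ, (m : ℚ) * xs c q i = y) :=
    ⟨Nat.find hex, Nat.find_spec hex, fun m hm => Nat.find_min hex hm⟩
  choose s hs using hNint
  have hNQ : (N : ℚ) ≠ 0 := by exact_mod_cast hN.ne'
  have hgen : ∀ i, (N : ℚ) * ((s (i + 1) : ℚ) - s (i - 1)) = (s i : ℚ) ^ 2 + (N : ℚ) ^ 2 * c := by
    intro i
    rw [← hs, ← hs, ← hs]
    have := xs_rec c q i
    linear_combination (N : ℚ) ^ 2 * this
  set a : ℤ := s 0 ^ 2 - N * (s 1 - s (-1)) with ha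
  have haq : (a : ℚ) = -((N : ℚ) ^ 2 * c) := by
    have h := hgen 0
    rw [show (0 : ℤ) + 1 = 1 by norm_num, show (0 : ℤ) - 1 = -1 by norm_num] at h
    rw [ha]
    push_cast
    linarith
  have hrec : ∀ i, (N : ℤ) * (s (i + 1) - s (i - 1)) = s i ^ 2 - a := by
    intro i
    have := hgen i
    have h2 : (N : ℚ) * ((s (i + 1) : ℚ) - s (i - 1)) = (s i : ℚ) ^ 2 - a := by
      rw [haq]; linarith
    exact_mod_cast h2
  have hcopa : IsCoprime a (N : ℤ) := by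
    by_contra hcon
    rw [Int.isCoprime_iff_gcd_eq_one] at hcon
    obtain ⟨l, hl, hld⟩ := Nat.exists_prime_and_dvd hcon
    have h1 : (l : ℤ) ∣ a := (Int.natCast_dvd_natCast.mpr hld).trans (Int.gcd_dvd_left _ _)
    have h2 : (l : ℤ) ∣ (N : ℤ) := (Int.natCast_dvd_natCast.mpr hld).trans (Int.gcd_dvd_right _ _)
    have hl' : Prime (l : ℤ) := Nat.prime_iff_prime_int.mp hl
    have h3 : ∀ i, (l : ℤ) ∣ s i := by
      intro i
      have h4 : (l : ℤ) ∣ s i ^ 2 := by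
        have h5 : s i ^ 2 = N * (s (i + 1) - s (i - 1)) + a := by linarith [hrec i]
        rw [h5]
        exact dvd_add (h2.mul_right _) h1
      exact hl'.dvd_of_dvd_pow h4
    have h2' : l ∣ N := by exact_mod_cast h2
    obtain ⟨m, hm⟩ := h2'
    have hm0 : 0 < m := by
      rcases Nat.eq_zero_or_pos m with h | h
      · rw [h] at hm; omega
      · exact h
    have hlt : m < N := by
      rw [hm]
      have := hl.two_le
      nlinarith
    apply hmin m hlt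
    refine ⟨hm0, fun i => ?_⟩
    obtain ⟨y, hy⟩ := h3 i
    refine ⟨y, ?_⟩
    have h6 := hs i
    rw [hy, hm] at h6
    push_cast at h6
    have hlQ : (l : ℚ) ≠ 0 := by exact_mod_cast hl.ne_zero
    apply mul_left_cancel₀ hlQ
    linarith
  have hcop : ∀ i, IsCoprime (s i) (N : ℤ) := by
    intro i
    have h1 : a = s i ^ 2 + N * (-(s (i + 1) - s (i - 1))) := by linarith [hrec i]
    rw [h1] at hcopa
    have h2 : IsCoprime (s i ^ 2) (N : ℤ) := by
      have := hcopa.add_mul_left_left (s (i + 1) - s (i - 1))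
      have e : s i ^ 2 + (N : ℤ) * (-(s (i + 1) - s (i - 1))) + N * (s (i + 1) - s (i - 1)) = s i ^ 2 := by ring
      rwa [e] at this
    exact IsCoprime.of_isCoprime_of_dvd_left h2 (dvd_pow_self _ two_ne_zero)
  have hden : c.den = N ^ 2 := by
    have h1 : c = ((-a : ℤ) : ℚ) / (((N ^ 2 : ℕ) : ℤ) : ℚ) := by
      push_cast
      rw [haq]
      field_simp
    have h2 : Nat.Coprime (-a).natAbs (((N ^ 2 : ℕ) : ℤ)).natAbs := by
      rw [Int.natAbs_neg, Int.natAbs_natCast]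
      have : Nat.Coprime a.natAbs N := by
        have := Int.isCoprime_iff_gcd_eq_one.mp hcopa
        simpa [Int.gcd] using this
      exact this.pow_right 2
    have h3 := Rat.den_div_eq_of_coprime (a := -a) (b := ((N ^ 2 : ℕ) : ℤ)) (by positivity) h2
    rw [← h1] at h3
    exact_mod_cast h3
  have hsper : ∀ i, s (i + P) = s i := by
    intro i
    have h1 := hs (i + P)
    rw [hper i, hs i] at h1
    exact_mod_cast h1.symm
  obtain ⟨i1, hi1⟩ := exists_max s P hq hsper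
  obtain ⟨i0, hi0⟩ := exists_max (fun i => |s i|) P hq (fun i => by
    show |s (i + P)| = |s i|
    rw [hsper i])
  refine ⟨s, N, a, (s i0).natAbs, i0, ⟨hN, ?_, ?_, hcop, hrec⟩, hs, hden, haq, i1, hi1⟩
  · intro i
    rw [Int.natCast_natAbs]
    exact hi0 i
  · rw [Int.natCast_natAbs]

end Pool.Agent.Helper590.Henon
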