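import Mathlib
import Pool.Agent.Helper590.Henon.IntMain
import Pool.Agent.Helper590.Henon.Check6
import Pool.Agent.Helper590.Henon.Check8

set_option autoImplicit false

namespace Pool.Agent.Helper590.Henon

theorem cls_odd (p k : ℕ) (hp : p.Prime) (hodd : p ≠ 2) (x y : ℤ) (hcop : ¬ (p : ℤ) ∣ y)
    (h : ((p ^ k : ℕ) : ℤ) ∣ x ^ 2 - y ^ 2) :
    ((p ^ k : ℕ) : ℤ) ∣ x - y ∨ ((p ^ k : ℕ) : ℤ) ∣ x + y := by
  have hp' : Prime (p : ℤ) := Nat.prime_iff_prime_int.mp hp
  have h1 : ((p ^ k : ℕ) : ℤ) ∣ (x - y) * (x + y) := by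
    have : x ^ 2 - y ^ 2 = (x - y) * (x + y) := by ring
    rwa [this] at h
  push_cast at h1 ⊢
  by_cases hd : (p : ℤ) ∣ x - y
  · left
    have h2 : ¬ (p : ℤ) ∣ x + y := by
      intro h3
      have h4 : (p : ℤ) ∣ 2 * y := by
        have := dvd_sub h3 hd
        have e : x + y - (x - y) = 2 * y := by ring
        rwa [e] at this
      rcases hp'.dvd_or_dvd h4 with h5 | h5
      · have h6 : p ∣ 2 := by exact_mod_cast h5
        exact hodd ((Nat.prime_dvd_prime_iff_eq hp Nat.prime_two).mp h6)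
      · exact hcop h5
    have h3 : IsCoprime ((p : ℤ) ^ k) (x + y) := (hp'.coprime_iff_not_dvd.mpr h2).pow_left
    exact h3.dvd_of_dvd_mul_right h1
  · right
    have h3 : IsCoprime ((p : ℤ) ^ k) (x - y) := (hp'.coprime_iff_not_dvd.mpr hd).pow_left
    exact h3.dvd_of_dvd_mul_left h1

theorem cls_two (k : ℕ) (x y : ℤ) (hx : x % 2 = 1) (hy : y % 2 = 1)
    (h : (2 * ((2 ^ k : ℕ) : ℤ)) ∣ x ^ 2 - y ^ 2) :
    ((2 ^ k : ℕ) : ℤ) ∣ x - y ∨ ((2 ^ k : ℕ) : ℤ) ∣ x + y := by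
  obtain ⟨A, hA⟩ : (2 : ℤ) ∣ x - y := by omega
  obtain ⟨B, hB⟩ : (2 : ℤ) ∣ x + y := by omega
  have h1 : x ^ 2 - y ^ 2 = (2 * A) * (2 * B) := by
    rw [← hA, ← hB]; ring
  rw [h1] at h
  push_cast at h ⊢
  have h2 : (2 : ℤ) ^ k ∣ A * (2 * B) := by
    obtain ⟨t, ht⟩ := h
    exact ⟨t, by linarith⟩
  have hp' : Prime (2 : ℤ) := Int.prime_two
  by_cases hd : (2 : ℤ) ∣ A
  · left
    have h3 : ¬ (2 : ℤ) ∣ B := by omega
    have h4 : IsCoprime ((2 : ℤ) ^ k) B := (hp'.coprime_iff_not_dvd.mpr h3).pow_left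
    rw [hA]
    apply h4.dvd_of_dvd_mul_left
    rw [show B * (2 * A) = A * (2 * B) by ring]
    exact h2
  · right
    have h4 : IsCoprime ((2 : ℤ) ^ k) A := (hp'.coprime_iff_not_dvd.mpr hd).pow_left
    rw [hB]
    exact h4.dvd_of_dvd_mul_left h2

/-- list of allowed closing times -/
def LL (N : ℕ) : List ℕ := if N ≤ 4 then [1, 2, 3, 4, 6, 8] else [1, 2, 4]

theorem four_mem (N : ℕ) : 4 ∈ LL N := by
  unfold LL
  split_ifs <;> decide

variable {s : ℤ → ℤ} {N : ℕ} {a : ℤ} {M : ℕ} {i0 : ℤ}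

theorem n1 (h : Orb s 1 a M i0) : Closes s (LL 1) := by
  by_cases hT : M < 8
  · exact h.small 1 _ 8 hT (fun i => one_dvd _) check1
  · exact closes_of_four (four_mem 1) (h.big1 (by omega) (by omega))

theorem n2 (h : Orb s 2 a M i0) : Closes s (LL 2) := by
  by_cases hT : M < 15
  · exact h.small 4 _ 15 hT (fun i => by simpa using h.divM2 (dvd_refl 2) i) check2
  · exact closes_of_four (four_mem 2) (h.big2 (dvd_refl 2) (by omega) (by omega))

theorem n3 (h : Orb s 3 a M i0) : Closes s (LL 3) := by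
  by_cases hT : M < 53
  · exact h.small 3 _ 53 hT (fun i => by simpa using h.divM1 i) check3
  · exact closes_of_four (four_mem 3) (h.big1 (by omega) (by omega))

theorem n4 (h : Orb s 4 a M i0) : Closes s (LL 4) := by
  by_cases hT : M < 50
  · refine h.small 8 _ 50 hT (fun i => ?_) check4
    have := h.divM2 (by norm_num) i
    norm_num at this
    exact this
  · exact closes_of_four (four_mem 4) (h.big2 (by norm_num) (by omega) (by omega))

theorem n6 (h : Orb s 6 a M i0) : Closes s (LL 6) := by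
  by_cases hT : M < 105
  · refine h.small 12 _ 105 hT (fun i => ?_) check6
    have := h.divM2 (by norm_num) i
    norm_num at this
    exact this
  · exact closes_of_four (four_mem 6) (h.big2 (by norm_num) (by omega) (by omega))

theorem n8 (h : Orb s 8 a M i0) : Closes s (LL 8) := by
  by_cases hT : M < 180
  · refine h.small 16 _ 180 hT (fun i => ?_) check8
    have := h.divM2 (by norm_num) i
    norm_num at this
    exact this
  · exact closes_of_four (four_mem 8) (h.big2 (by norm_num) (by omega) (by omega))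

theorem Orb.ndvd (h : Orb s N a M i0) (p : ℕ) (hp : p.Prime) (hd : p ∣ N) (i : ℤ) : ¬ (p : ℤ) ∣ s i := by
  intro h1
  have h2 : (p : ℤ) ∣ (N : ℤ) := by exact_mod_cast hd
  have h3 := (h.hcop i).isUnit_of_dvd' h1 h2
  exact (Nat.prime_iff_prime_int.mp hp).not_isUnit h3

/-- application of the two class case -/
theorem Orb.padic (h : Orb s N a M i0) (p r E : ℕ) (hp : p.Prime) (hd : p ^ r ∣ N) (hg3 : 3 ≤ p ^ r)
    (hE : (p ≠ 2 ∧ N % 2 = 1 ∧ E = (p ^ r) ^ 2) ∨ (p ≠ 2 ∧ N % 2 = 0 ∧ E = 2 * (p ^ r) ^ 2) ∨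
      (p = 2 ∧ 2 * E = (p ^ r) ^ 2))
    (hor : 6 * N ≤ E ∨ (5 * N ≤ E ∧ 9 * N < 2 * M)) (i : ℤ) : s (i + 4) = s i := by
  have hr0 : r ≠ 0 := by
    rintro rfl
    norm_num at hg3
  have hcopg : IsCoprime (s 0) ((p ^ r : ℕ) : ℤ) := by
    have h2 : ((p ^ r : ℕ) : ℤ) ∣ (N : ℤ) := by exact_mod_cast hd
    exact (h.hcop 0).of_isCoprime_of_dvd_right h2
  have hpN : p ∣ N := (dvd_pow_self p hr0).trans hd
  have hco2 : p ≠ 2 → IsCoprime (((p ^ r : ℕ) : ℤ) ^ 2) 2 := by
    intro hp2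
    have hpo : p % 2 = 1 := hp.eq_two_or_odd.resolve_left hp2
    have h1 : IsCoprime ((p ^ r : ℕ) : ℤ) 2 := by
      rw [Int.isCoprime_iff_gcd_eq_one]
      have : Nat.Coprime (p ^ r) 2 := ((Nat.odd_iff.mpr hpo).pow).coprime_two_right
      exact_mod_cast this
    exact h1.pow_left
  refine padic_case s N a M ((p ^ r : ℕ) : ℤ) E (by exact_mod_cast h.hN) ?_ (by exact_mod_cast hd) ?_ ?_
    (fun h2 i => h.odd (by exact_mod_cast h2) i) ?_ hcopg h.hM h.hm ?_ h.hrec i
  · intro h1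
    have h2 : ((p ^ r : ℕ) : ℤ) ∣ 2 := by
      rw [mul_comm] at h1
      exact (hcopg.symm).dvd_of_dvd_mul_left h1
    have h3 : p ^ r ∣ 2 := by exact_mod_cast h2
    have := Nat.le_of_dvd (by norm_num) h3
    omega
  · have h1 : p ^ r ∣ E := by
      rcases hE with ⟨_, _, h2⟩ | ⟨_, _, h2⟩ | ⟨h1, h2⟩
      · rw [h2]; exact dvd_pow_self _ two_ne_zero
      · rw [h2]; exact (dvd_pow_self _ two_ne_zero).mul_left 2
      · subst h1
        obtain ⟨k, rfl⟩ : ∃ k, r = k + 1 := ⟨r - 1, by omega⟩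
        refine ⟨2 ^ k, ?_⟩
        have h3 : 2 * E = 2 * (2 ^ (k + 1) * 2 ^ k) := by
          rw [h2]; ring
        omega
    exact_mod_cast h1
  · intro x hx hpar
    rcases hE with ⟨h1, _, h2⟩ | ⟨h1, h3, h2⟩ | ⟨h1, h2⟩
    · rw [h2]
      push_cast at hx ⊢
      have := hco2 h1
      push_cast at this
      exact this.dvd_of_dvd_mul_left hx
    · rw [h2]
      have h4 : (2 : ℤ) ∣ x := hpar (by omega)
      have := hco2 h1
      push_cast at hx this ⊢
      exact (this.symm).mul_dvd h4 (this.dvd_of_dvd_mul_left hx)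
    · have h4 : (2 * (E : ℤ)) ∣ 2 * x := by
        have : ((2 * E : ℕ) : ℤ) ∣ 2 * x := by
          rw [h2]; push_cast at hx ⊢; exact hx
        push_cast at this
        exact this
      exact (mul_dvd_mul_iff_left (by norm_num : (2 : ℤ) ≠ 0)).mp h4
  · intro i
    by_cases hp2 : p = 2
    · subst hp2
      apply cls_two r _ _ (h.odd hpN i) (h.odd hpN 0)
      have h1 := h.div2 hpN i 0
      refine dvd_trans ?_ h1
      exact mul_dvd_mul_left 2 (by exact_mod_cast hd)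
    · apply cls_odd p r hp hp2 _ _ (h.ndvd p hp hpN 0)
      exact dvd_trans (by exact_mod_cast hd) (h.div1 i 0)
  · rcases hor with h1 | ⟨h1, h2⟩
    · left; exact_mod_cast h1
    · right; exact ⟨by exact_mod_cast h1, by exact_mod_cast h2⟩

theorem shapeA (p k : ℕ) (hp : p.Prime) (hodd : p ≠ 2) (h : Orb s (p ^ k) a M i0) :
    Closes s (LL (p ^ k)) := by
  have hpo : p % 2 = 1 := hp.eq_two_or_odd.resolve_left hodd
  have hNo : (p ^ k) % 2 = 1 := Nat.odd_iff.mp ((Nat.odd_iff.mpr hpo).pow)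
  rcases Nat.eq_zero_or_pos k with hk | hk
  · subst hk
    have e : p ^ 0 = 1 := pow_zero p
    rw [e] at h ⊢
    exact n1 h
  have hpk : p ≤ p ^ k := Nat.le_self_pow hk.ne' p
  have hp3 : 3 ≤ p := by
    have := hp.two_le
    omega
  by_cases h7 : 7 ≤ p ^ k
  · refine closes_of_four (four_mem _) (h.padic p k ((p ^ k) ^ 2) hp dvd_rfl (by omega)
      (Or.inl ⟨hodd, hNo, rfl⟩) (Or.inl ?_))
    nlinarith
  · have h35 : p ^ k = 3 ∨ p ^ k = 5 := by omega
    rcases h35 with h35 | h35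
    · rw [h35] at h ⊢
      exact n3 h
    · by_cases hT : M < 23
      · rw [h35] at h ⊢
        exact h.small 5 _ 23 hT (fun i => by simpa using h.divM1 i) check5
      · refine closes_of_four (four_mem _) (h.padic p k ((p ^ k) ^ 2) hp dvd_rfl (by omega)
          (Or.inl ⟨hodd, hNo, rfl⟩) (Or.inr ?_))
        rw [h35]
        omega

theorem shapeB (p k : ℕ) (hp : p.Prime) (hodd : p ≠ 2) (h : Orb s (2 * p ^ k) a M i0) :
    Closes s (LL (2 * p ^ k)) := by
  rcases Nat.eq_zero_or_pos k with hk | hk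
  · subst hk
    have e : 2 * p ^ 0 = 2 := by rw [pow_zero, mul_one]
    rw [e] at h ⊢
    exact n2 h
  have hpk : p ≤ p ^ k := Nat.le_self_pow hk.ne' p
  have hpo : p % 2 = 1 := hp.eq_two_or_odd.resolve_left hodd
  have hNo : (p ^ k) % 2 = 1 := Nat.odd_iff.mp ((Nat.odd_iff.mpr hpo).pow)
  have hp3 : 3 ≤ p := by
    have := hp.two_le
    omega
  by_cases h7 : 7 ≤ p ^ k
  · refine closes_of_four (four_mem _) (h.padic p k (2 * (p ^ k) ^ 2) hp (dvd_mul_left _ _) (by omega)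
      (Or.inr (Or.inl ⟨hodd, by omega, rfl⟩)) (Or.inl ?_))
    nlinarith
  · have h35 : p ^ k = 3 ∨ p ^ k = 5 := by omega
    rcases h35 with h35 | h35
    · rw [h35] at h ⊢
      exact n6 h
    · by_cases hT : M < 46
      · rw [h35] at h ⊢
        refine h.small 20 _ 46 hT (fun i => ?_) check10
        have := h.divM2 (by norm_num) i
        norm_num at this
        exact this
      · refine closes_of_four (four_mem _) (h.padic p k (2 * (p ^ k) ^ 2) hp (dvd_mul_left _ _) (by omega)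
          (Or.inr (Or.inl ⟨hodd, by omega, rfl⟩)) (Or.inr ?_))
        rw [h35]
        omega

theorem shapeC (k : ℕ) (h : Orb s (2 ^ k) a M i0) : Closes s (LL (2 ^ k)) := by
  by_cases h0 : k = 0
  · subst h0; exact n1 h
  by_cases h1 : k = 1
  · subst h1; exact n2 h
  by_cases h2 : k = 2
  · subst h2; exact n4 h
  by_cases h3 : k = 3
  · subst h3; exact n8 h
  obtain ⟨n, rfl⟩ : ∃ n, k = n + 4 := ⟨k - 4, by omega⟩
  have e : 2 ^ (n + 4) = 16 * 2 ^ n := by ring
  have hpos : 1 ≤ 2 ^ n := Nat.one_le_two_pow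
  refine closes_of_four (four_mem _) (h.padic 2 (n + 4) (128 * (2 ^ n) ^ 2) Nat.prime_two dvd_rfl (by omega)
    (Or.inr (Or.inr ⟨rfl, by rw [e]; ring⟩)) (Or.inl ?_))
  rw [e]
  nlinarith

/-- the case of a dominating prime power -/
theorem shapeD (p r : ℕ) (hp : p.Prime) (hd : p ^ r ∣ N ^ 2) (hbig : 144 * N ^ 2 ≤ (p ^ r) ^ 2)
    (h : Orb s N a M i0) (i : ℤ) : s (i + 4) = s i := by
  have hN0 : N ≠ 0 := h.hN.ne'
  have hv : r ≤ 2 * N.factorization p := by
    have h1 := (hp.pow_dvd_iff_le_factorization (pow_ne_zero 2 hN0)).mp hd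
    rw [Nat.factorization_pow] at h1
    simpa using h1
  have hdv : p ^ (N.factorization p) ∣ N := Nat.ordProj_dvd N p
  have h1 : p ^ r ≤ (p ^ (N.factorization p)) ^ 2 := by
    rw [← pow_mul, mul_comm]
    exact Nat.pow_le_pow_right hp.pos hv
  have h2 : 12 * N ≤ (p ^ (N.factorization p)) ^ 2 := by
    have h3 : (12 * N) ^ 2 ≤ (p ^ r) ^ 2 := by nlinarith
    have h4 : 12 * N ≤ p ^ r := (Nat.pow_le_pow_iff_left two_ne_zero).mp h3
    omega
  have hNpos := h.hN
  have h3 : 3 ≤ p ^ (N.factorization p) := by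
    by_contra hcon
    have h4 : p ^ (N.factorization p) ≤ 2 := by omega
    have h5 : (p ^ (N.factorization p)) ^ 2 ≤ 2 ^ 2 := Nat.pow_le_pow_left h4 2
    omega
  by_cases hp2 : p = 2
  · have h5 : N.factorization p ≠ 0 := by
      intro h0
      rw [h0] at h3
      norm_num at h3
    obtain ⟨k, hk⟩ : ∃ k, N.factorization p = k + 1 := ⟨N.factorization p - 1, by omega⟩
    have h6 : (p ^ (N.factorization p)) ^ 2 = 2 * (2 * (2 ^ k) ^ 2) := by
      rw [hk, hp2]; ring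
    refine h.padic p (N.factorization p) (2 * (2 ^ k) ^ 2) hp hdv h3 (Or.inr (Or.inr ⟨hp2, h6.symm⟩)) (Or.inl ?_) i
    omega
  · rcases Nat.mod_two_eq_zero_or_one N with h4 | h4
    · refine h.padic p (N.factorization p) (2 * (p ^ (N.factorization p)) ^ 2) hp hdv h3
        (Or.inr (Or.inl ⟨hp2, h4, rfl⟩)) (Or.inl ?_) i
      omega
    · refine h.padic p (N.factorization p) ((p ^ (N.factorization p)) ^ 2) hp hdv h3
        (Or.inl ⟨hp2, h4, rfl⟩) (Or.inl ?_) i
      omega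

end Pool.Agent.Helper590.Henon
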