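import Mathlib
import Pool.Agent.Helper590.Henon.Shape
import Pool.Agent.Helper590.Henon.Rat

set_option autoImplicit false

namespace Pool.Agent.Helper590.Henon

theorem mem_of_dvd4 {P : ℕ} (hP : 0 < P) (h : P ∣ 4) : P ∈ ({1, 2, 4} : Finset ℕ) := by
  have h1 := Nat.le_of_dvd (by norm_num) h
  interval_cases P <;> simp_all

theorem mem_of_LL {P j N : ℕ} (hP : 0 < P) (hj : j ∈ LL N) (h : P ∣ j) :
    P ∈ ({1, 2, 3, 4, 6, 8} : Finset ℕ) ∧ (4 < N → P ∈ ({1, 2, 4} : Finset ℕ)) := by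
  unfold LL at hj
  split_ifs at hj with hN
  · refine ⟨?_, fun h' => absurd h' (by omega)⟩
    simp only [List.mem_cons, List.not_mem_nil, or_false] at hj
    rcases hj with rfl | rfl | rfl | rfl | rfl | rfl <;>
      (have h1 := Nat.le_of_dvd (by norm_num) h; interval_cases P <;> simp_all)
  · simp only [List.mem_cons, List.not_mem_nil, or_false] at hj
    have h4 : P ∣ 4 := by
      rcases hj with rfl | rfl | rfl
      · exact h.trans (by norm_num)
      · exact h.trans (by norm_num)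
      · exact h
    have h5 := mem_of_dvd4 hP h4
    refine ⟨?_, fun _ => h5⟩
    simp only [Finset.mem_insert, Finset.mem_singleton] at h5 ⊢
    omega

theorem dvd4_of_four (c : ℚ) (q : ℚ × ℚ) (s : ℤ → ℤ) (N : ℕ) (hN : 0 < N)
    (hs : ∀ i, (N : ℚ) * xs c q i = s i) (h : ∀ i, s (i + 4) = s i) :
    Function.minimalPeriod (fun q : ℚ × ℚ => (q.2, q.2 ^ 2 + c + q.1)) q ∣ 4 := by
  have hNQ : (N : ℚ) ≠ 0 := by exact_mod_cast hN.ne'
  have hx : ∀ i, xs c q (i + 4) = xs c q i := by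
    intro i
    apply mul_left_cancel₀ hNQ
    rw [hs, hs, h i]
  apply closes_dvd c q 0 4
  · exact_mod_cast hx 0
  · exact_mod_cast hx (0 + 1)

theorem closes_period (c : ℚ) (q : ℚ × ℚ) (s : ℤ → ℤ) (N : ℕ) (hN : 0 < N) (L : List ℕ)
    (hs : ∀ i, (N : ℚ) * xs c q i = s i) (h : Closes s L) :
    ∃ j ∈ L, Function.minimalPeriod (fun q : ℚ × ℚ => (q.2, q.2 ^ 2 + c + q.1)) q ∣ j := by
  have hNQ : (N : ℚ) ≠ 0 := by exact_mod_cast hN.ne'
  obtain ⟨i, j, hj, h1, h2⟩ := h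
  refine ⟨j, hj, closes_dvd c q i j ?_ ?_⟩
  · apply mul_left_cancel₀ hNQ
    rw [hs, hs, h1]
  · apply mul_left_cancel₀ hNQ
    rw [hs, hs, h2]

theorem bigc (c : ℚ) (s : ℤ → ℤ) (N : ℕ) (a : ℤ) (M : ℕ) (i0 i1 : ℤ) (h : Orb s N a M i0)
    (ha : (a : ℚ) = -((N : ℚ) ^ 2 * c)) (hden : c.den = N ^ 2) (hi1 : ∀ i, s i ≤ s i1)
    (hc : 75 * (c.den : ℚ) ≤ |c|) (i : ℤ) : s (i + 4) = s i := by
  have hN := h.hN
  have hNZ : (1 : ℤ) ≤ N := by exact_mod_cast hN
  have hNQ : (0 : ℚ) < N := by exact_mod_cast hN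
  have habs : 75 * (N : ℤ) ^ 4 ≤ |a| := by
    have h1 : |(a : ℚ)| = (N : ℚ) ^ 2 * |c| := by
      rw [ha, abs_neg, abs_mul, abs_of_pos (by positivity)]
    have h2 : 75 * (N : ℚ) ^ 4 ≤ |(a : ℚ)| := by
      rw [h1]
      rw [hden] at hc
      push_cast at hc
      have : (0 : ℚ) ≤ (N : ℚ) ^ 2 := by positivity
      nlinarith
    exact_mod_cast h2
  rcases le_or_gt a 0 with ha0 | ha0
  · exfalso
    rw [abs_of_nonpos ha0] at habs
    have h1 := h.hrec (i1 + 1)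
    have h2 := hi1 (i1 + 1 + 1)
    rw [show i1 + 1 - 1 = i1 by ring] at h1
    have h3 : (N : ℤ) * (s (i1 + 1 + 1) - s i1) ≤ 0 :=
      mul_nonpos_of_nonneg_of_nonpos (by linarith) (by linarith)
    have h4 : 0 ≤ s (i1 + 1) ^ 2 := sq_nonneg _
    have h5 : (0 : ℤ) < 75 * (N : ℤ) ^ 4 := by positivity
    linarith
  · rw [abs_of_pos ha0] at habs
    have h1 := h.hrec i0
    have h2 := abs_le.mp (h.hM (i0 + 1))
    have h3 := abs_le.mp (h.hM (i0 - 1))
    have h4 : s i0 ^ 2 = (M : ℤ) ^ 2 := by rw [← sq_abs, h.hi0]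
    rw [h4] at h1
    have h5 : a ≤ (M : ℤ) ^ 2 + 2 * N * M := by nlinarith
    have h6 : 10 * (N : ℤ) ^ 2 + 5 * N ≤ 2 * M := by
      by_contra hcon
      have h7 : 2 * (M : ℤ) + 2 * N < 17 * (N : ℤ) ^ 2 := by nlinarith
      have h8 : (2 * (M : ℤ) + 2 * N) ^ 2 ≤ (17 * (N : ℤ) ^ 2) ^ 2 :=
        pow_le_pow_left₀ (by positivity) h7.le 2
      have h9 : (0 : ℤ) < (N : ℤ) ^ 4 := by positivity
      nlinarith
    have h7 : 25 * (N : ℤ) < 4 * M := by
      rcases eq_or_lt_of_le hNZ with h8 | h8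
      · rw [← h8] at h6 ⊢
        omega
      · nlinarith
    exact h.big1 (by exact_mod_cast h7) (by exact_mod_cast h6) i

theorem sq_shape (N p m : ℕ) (hp : p.Prime) (h : N ^ 2 = p ^ m) : ∃ k, N = p ^ k := by
  have h1 : N ∣ p ^ m := by
    rw [← h]
    exact dvd_pow_self N two_ne_zero
  obtain ⟨k, _, hk⟩ := (Nat.dvd_prime_pow hp).mp h1
  exact ⟨k, hk⟩

theorem main (c : ℚ) (q : ℚ × ℚ)
    (hq : 0 < Function.minimalPeriod (fun q : ℚ × ℚ => (q.2, q.2 ^ 2 + c + q.1)) q) :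
    ((75 * (c.den : ℚ) ≤ |c| ∨
      (∃ p r : ℕ, p.Prime ∧ p ^ r ∣ c.den ∧ 144 * c.den ≤ (p ^ r) ^ 2) ∨
      (16 < c.den ∧ ∃ p r : ℕ, p.Prime ∧ (c.den = p ^ r ∨ c.den = 4 * p ^ r))) →
      Function.minimalPeriod (fun q : ℚ × ℚ => (q.2, q.2 ^ 2 + c + q.1)) q ∈ ({1, 2, 4} : Finset ℕ)) ∧
    (c.den ≤ 16 →
      Function.minimalPeriod (fun q : ℚ × ℚ => (q.2, q.2 ^ 2 + c + q.1)) q ∈
        ({1, 2, 3, 4, 6, 8} : Finset ℕ)) := by
  obtain ⟨s, N, a, M, i0, h, hs, hden, ha, i1, hi1⟩ := exists_orb c q hq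
  have hshape : (∃ p r : ℕ, p.Prime ∧ (c.den = p ^ r ∨ c.den = 4 * p ^ r)) →
      Closes s (LL N) := by
    rintro ⟨p, r, hp, hor⟩
    rw [hden] at hor
    have hk : ∃ k, N = p ^ k ∨ N = 2 * p ^ k := by
      rcases hor with h1 | h1
      · obtain ⟨k, hk⟩ := sq_shape N p r hp h1
        exact ⟨k, Or.inl hk⟩
      · have h2 : 2 ∣ N := by
          have : 2 ∣ N ^ 2 := by rw [h1]; omega
          exact Nat.prime_two.dvd_of_dvd_pow this
        obtain ⟨n, rfl⟩ := h2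
        have h3 : n ^ 2 = p ^ r := by nlinarith
        obtain ⟨k, hk⟩ := sq_shape n p r hp h3
        exact ⟨k, Or.inr (by rw [hk])⟩
    obtain ⟨k, hk⟩ := hk
    by_cases hp2 : p = 2
    · subst hp2
      rcases hk with hk | hk
      · rw [hk] at h ⊢
        exact shapeC k h
      · have hk' : N = 2 ^ (k + 1) := by rw [hk]; ring
        rw [hk'] at h ⊢
        exact shapeC (k + 1) h
    · rcases hk with hk | hk
      · rw [hk] at h ⊢
        exact shapeA p k hp hp2 h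
      · rw [hk] at h ⊢
        exact shapeB p k hp hp2 h
  constructor
  · rintro (h1 | ⟨p, r, hp, h1, h2⟩ | ⟨h1, h2⟩)
    · exact mem_of_dvd4 hq (dvd4_of_four c q s N h.hN hs (bigc c s N a M i0 i1 h ha hden hi1 h1))
    · rw [hden] at h1 h2
      exact mem_of_dvd4 hq (dvd4_of_four c q s N h.hN hs (shapeD p r hp h1 h2 h))
    · have h3 := hshape h2
      obtain ⟨j, hj, h4⟩ := closes_period c q s N h.hN _ hs h3
      have h5 : 4 < N := by
        rw [hden] at h1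
        nlinarith
      exact (mem_of_LL hq hj h4).2 h5
  · intro h1
    have hN4 : N ≤ 4 := by
      rw [hden] at h1
      nlinarith
    have hN0 := h.hN
    have hcl : Closes s (LL N) := by
      interval_cases N
      · exact n1 h
      · exact n2 h
      · exact n3 h
      · exact n4 h
    obtain ⟨j, hj, h4⟩ := closes_period c q s N h.hN _ hs hcl
    exact (mem_of_LL hq hj h4).1

end Pool.Agent.Helper590.Henon
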